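import Mathlib
import Pool.Agent.TH876.FH.Def

/-!
# The Legendre parameter of an elliptic curve with full two-torsion
-/

set_option autoImplicit false

namespace Pool.Agent.Y729.FW

open NumberField IsDedekindDomain
open Pool.Agent.TH876.FH (FullTwo GoodAt badNorm)

section alg

variable {K : Type} [Field K] [CharZero K]

/-- the coefficients in terms of the roots -/
theorem coeffs {b2 b4 b6 x y z : K} (hxy : x ≠ y) (hxz : x ≠ z) (hyz : y ≠ z)
    (hx : 4 * x ^ 3 + b2 * x ^ 2 + 2 * b4 * x + b6 = 0)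
    (hy : 4 * y ^ 3 + b2 * y ^ 2 + 2 * b4 * y + b6 = 0)
    (hz : 4 * z ^ 3 + b2 * z ^ 2 + 2 * b4 * z + b6 = 0) :
    b2 = -4 * (x + y + z) ∧ b4 = 2 * (x * y + x * z + y * z) ∧ b6 = -4 * (x * y * z) := by
  have h1 : 4 * (x ^ 2 + x * y + y ^ 2) + b2 * (x + y) + 2 * b4 = 0 := by
    have : (x - y) * (4 * (x ^ 2 + x * y + y ^ 2) + b2 * (x + y) + 2 * b4) = 0 := by
      linear_combination hx - hy
    exact (mul_eq_zero.1 this).resolve_left (sub_ne_zero.2 hxy)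
  have h2 : 4 * (x ^ 2 + x * z + z ^ 2) + b2 * (x + z) + 2 * b4 = 0 := by
    have : (x - z) * (4 * (x ^ 2 + x * z + z ^ 2) + b2 * (x + z) + 2 * b4) = 0 := by
      linear_combination hx - hz
    exact (mul_eq_zero.1 this).resolve_left (sub_ne_zero.2 hxz)
  have h3 : 4 * (x + y + z) + b2 = 0 := by
    have : (y - z) * (4 * (x + y + z) + b2) = 0 := by
      linear_combination h1 - h2
    exact (mul_eq_zero.1 this).resolve_left (sub_ne_zero.2 hyz)
  have e2 : b2 = -4 * (x + y + z) := by linear_combination h3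
  have e4 : b4 = 2 * (x * y + x * z + y * z) := by
    have h4 : (2 : K) * b4 = 2 * (2 * (x * y + x * z + y * z)) := by
      rw [e2] at h1
      linear_combination h1
    exact mul_left_cancel₀ two_ne_zero h4
  refine ⟨e2, e4, ?_⟩
  rw [e2, e4] at hx
  linear_combination hx

theorem disc_c4 (E : WeierstrassCurve K) {x y z : K} (h2 : E.b₂ = -4 * (x + y + z))
    (h4 : E.b₄ = 2 * (x * y + x * z + y * z)) (h6 : E.b₆ = -4 * (x * y * z)) :
    E.Δ = 16 * ((x - y) ^ 2 * (x - z) ^ 2 * (y - z) ^ 2) ∧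
    E.c₄ = 16 * (x ^ 2 + y ^ 2 + z ^ 2 - x * y - x * z - y * z) := by
  have h8 : 4 * E.b₈ = E.b₂ * E.b₆ - E.b₄ ^ 2 := E.b_relation
  constructor
  · have : (4 : K) * E.Δ = 4 * (16 * ((x - y) ^ 2 * (x - z) ^ 2 * (y - z) ^ 2)) := by
      rw [WeierstrassCurve.Δ]
      have e : 4 * (-E.b₂ ^ 2 * E.b₈ - 8 * E.b₄ ^ 3 - 27 * E.b₆ ^ 2 + 9 * E.b₂ * E.b₄ * E.b₆) =
        -E.b₂ ^ 2 * (E.b₂ * E.b₆ - E.b₄ ^ 2) +
          4 * (- 8 * E.b₄ ^ 3 - 27 * E.b₆ ^ 2 + 9 * E.b₂ * E.b₄ * E.b₆) := by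
        rw [← h8]; ring
      rw [e, h2, h4, h6]
      ring
    exact mul_left_cancel₀ (by norm_num) this
  · rw [WeierstrassCurve.c₄, h2, h4]
    ring

end alg

section val

variable {K : Type} [Field K] {Γ : Type} [LinearOrderedCommGroupWithZero Γ] (v : Valuation K Γ)

theorem v_nat (n : ℕ) : v (n : K) ≤ 1 := by
  induction n with
  | zero => simp
  | succ n ih =>
    push_cast
    exact (v.map_add _ _).trans (max_le ih (by simp))

theorem v_four (h2 : v 2 = 1) : v 4 = 1 := by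
  have : (4 : K) = 2 ^ 2 := by norm_num
  rw [this, map_pow, h2, one_pow]

theorem v_sixteen (h2 : v 2 = 1) : v 16 = 1 := by
  have : (16 : K) = 2 ^ 4 := by norm_num
  rw [this, map_pow, h2, one_pow]

theorem v_int {b2 b4 b6 e : K} (h2 : v 2 = 1) (k2 : v b2 ≤ 1) (k4 : v b4 ≤ 1)
    (k6 : v b6 ≤ 1) (h : 4 * e ^ 3 + b2 * e ^ 2 + 2 * b4 * e + b6 = 0) : v e ≤ 1 := by
  by_contra hc
  rw [not_le] at hc
  have h4 : v 4 = 1 := v_four v h2
  have e1 : 4 * e ^ 3 = -(b2 * e ^ 2 + 2 * b4 * e + b6) := by linear_combination h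
  have e2 : v (4 * e ^ 3) = v e ^ 3 := by rw [map_mul, h4, one_mul, map_pow]
  have e3 : v (b2 * e ^ 2 + 2 * b4 * e + b6) ≤ v e ^ 2 := by
    refine (v.map_add _ _).trans (max_le ((v.map_add _ _).trans (max_le ?_ ?_)) ?_)
    · rw [map_mul, map_pow]
      exact mul_le_of_le_one_left' k2
    · rw [map_mul, map_mul, h2, one_mul]
      calc v b4 * v e ≤ 1 * v e := mul_le_mul_left k4 _
        _ = v e := one_mul _
        _ ≤ v e ^ 2 := by
          rw [sq]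
          exact le_mul_of_one_le_left' hc.le
    · exact k6.trans (one_le_pow₀ hc.le)
  rw [← v.map_neg, ← e1, e2] at e3
  have e4 : v e ^ 2 < v e ^ 3 := pow_lt_pow_right₀ hc (by norm_num)
  exact absurd e3 (not_le.2 e4)

theorem v_b (h2 : v 2 = 1) (E : WeierstrassCurve K) (ha1 : v E.a₁ ≤ 1)
    (ha2 : v E.a₂ ≤ 1) (ha3 : v E.a₃ ≤ 1) (ha4 : v E.a₄ ≤ 1) (ha6 : v E.a₆ ≤ 1) :
    v E.b₂ ≤ 1 ∧ v E.b₄ ≤ 1 ∧ v E.b₆ ≤ 1 := by
  have v4 : v 4 ≤ 1 := (v_four v h2).le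
  refine ⟨?_, ?_, ?_⟩
  · rw [WeierstrassCurve.b₂]
    refine (v.map_add _ _).trans (max_le ?_ ?_)
    · rw [map_pow]
      exact pow_le_one' ha1 2
    · rw [map_mul]
      exact mul_le_one' v4 ha2
  · rw [WeierstrassCurve.b₄]
    refine (v.map_add _ _).trans (max_le ?_ ?_)
    · rw [map_mul]
      exact mul_le_one' h2.le ha4
    · rw [map_mul]
      exact mul_le_one' ha1 ha3
  · rw [WeierstrassCurve.b₆]
    refine (v.map_add _ _).trans (max_le ?_ ?_)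
    · rw [map_pow]
      exact pow_le_one' ha3 2
    · rw [map_mul]
      exact mul_le_one' v4 ha6

theorem one_of_mul {x y : Γ} (hx : x ≤ 1) (hy : y ≤ 1) (h : x * y = 1) : x = 1 := by
  refine le_antisymm hx ?_
  calc (1 : Γ) = x * y := h.symm
    _ ≤ x * 1 := mul_le_mul_right hy _
    _ = x := mul_one _

end val

/-- roots under a change of variables -/
theorem root_change {K : Type} [Field K] (E : WeierstrassCurve K)
    (C : WeierstrassCurve.VariableChange K) {e : K}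
    (h : 4 * e ^ 3 + E.b₂ * e ^ 2 + 2 * E.b₄ * e + E.b₆ = 0) :
    4 * (((C.u⁻¹ : Kˣ) : K) ^ 2 * (e - C.r)) ^ 3 +
      (C • E).b₂ * (((C.u⁻¹ : Kˣ) : K) ^ 2 * (e - C.r)) ^ 2 +
      2 * (C • E).b₄ * (((C.u⁻¹ : Kˣ) : K) ^ 2 * (e - C.r)) + (C • E).b₆ = 0 := by
  rw [WeierstrassCurve.variableChange_b₂, WeierstrassCurve.variableChange_b₄,
    WeierstrassCurve.variableChange_b₆]
  linear_combination ((C.u⁻¹ : Kˣ) : K) ^ 6 * h

theorem leg (K : Type) [Field K] [NumberField K] (E : WeierstrassCurve K) (hE : E.Δ ≠ 0)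
    (h2 : FullTwo E) :
    ∃ l : K, l ≠ 0 ∧ l ≠ 1 ∧
      E.c₄ ^ 3 / E.Δ * (l ^ 2 * (1 - l) ^ 2) = 256 * (l ^ 2 - l + 1) ^ 3 ∧
      ∀ v : HeightOneSpectrum (𝓞 K), GoodAt v E → v.valuation K (2 : K) = 1 →
        v.valuation K l = 1 ∧ v.valuation K (1 - l) = 1 := by
  obtain ⟨e, he, hr⟩ := h2
  have h01 : e 0 ≠ e 1 := fun h => absurd (he h) (by decide)
  have h02 : e 0 ≠ e 2 := fun h => absurd (he h) (by decide)
  have h12 : e 1 ≠ e 2 := fun h => absurd (he h) (by decide)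
  obtain ⟨k2, k4, k6⟩ := coeffs h01 h02 h12 (hr 0) (hr 1) (hr 2)
  obtain ⟨hD, hc⟩ := disc_c4 E k2 k4 k6
  have ha : e 1 - e 0 ≠ 0 := sub_ne_zero.2 h01.symm
  have hb : e 2 - e 0 ≠ 0 := sub_ne_zero.2 h02.symm
  have hd : e 1 - e 2 ≠ 0 := sub_ne_zero.2 h12
  have e1 : 1 - (e 2 - e 0) / (e 1 - e 0) = (e 1 - e 2) / (e 1 - e 0) := by
    field_simp
    ring
  refine ⟨(e 2 - e 0) / (e 1 - e 0), div_ne_zero hb ha, ?_, ?_, ?_⟩
  · intro h
    rw [div_eq_one_iff_eq ha] at h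
    exact h12 (sub_left_injective h).symm
  · rw [e1, hD, hc]
    have h3 : e 0 - e 1 ≠ 0 := sub_ne_zero.2 h01
    have h4 : e 0 - e 2 ≠ 0 := sub_ne_zero.2 h02
    field_simp
    ring
  · intro v hg hv2
    obtain ⟨C, ha1, ha2, ha3, ha4, ha6, hΔ⟩ := hg
    obtain ⟨q2, q4, q6⟩ := v_b _ hv2 (C • E) ha1 ha2 ha3 ha4 ha6
    set f : Fin 3 → K := fun i => ((C.u⁻¹ : Kˣ) : K) ^ 2 * (e i - C.r) with hf
    have hu : ((C.u⁻¹ : Kˣ) : K) ^ 2 ≠ 0 := pow_ne_zero _ (Units.ne_zero _)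
    have hfr : ∀ i, 4 * f i ^ 3 + (C • E).b₂ * f i ^ 2 + 2 * (C • E).b₄ * f i + (C • E).b₆ = 0 :=
      fun i => root_change E C (hr i)
    have hfi : ∀ i, v.valuation K (f i) ≤ 1 := fun i => v_int _ hv2 q2 q4 q6 (hfr i)
    have hfd : ∀ i j, f i - f j = ((C.u⁻¹ : Kˣ) : K) ^ 2 * (e i - e j) := by
      intro i j
      simp only [hf]
      ring
    have hne : ∀ i j, e i ≠ e j → f i ≠ f j := by
      intro i j hij h
      have h5 := hfd i j
      rw [h, sub_self] at h5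
      exact (mul_ne_zero hu (sub_ne_zero.2 hij)) h5.symm
    obtain ⟨m2, m4, m6⟩ := coeffs (hne 0 1 h01) (hne 0 2 h02) (hne 1 2 h12) (hfr 0) (hfr 1) (hfr 2)
    obtain ⟨hD', -⟩ := disc_c4 (C • E) m2 m4 m6
    rw [hD', map_mul, v_sixteen _ hv2, one_mul, map_mul, map_mul, map_pow, map_pow, map_pow] at hΔ
    have i01 : v.valuation K (f 0 - f 1) ≤ 1 := (Valuation.map_sub _ _ _).trans (max_le (hfi 0) (hfi 1))
    have i02 : v.valuation K (f 0 - f 2) ≤ 1 := (Valuation.map_sub _ _ _).trans (max_le (hfi 0) (hfi 2))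
    have i12 : v.valuation K (f 1 - f 2) ≤ 1 := (Valuation.map_sub _ _ _).trans (max_le (hfi 1) (hfi 2))
    have p01 := pow_le_one' i01 2
    have p02 := pow_le_one' i02 2
    have p12 := pow_le_one' i12 2
    have s01 : v.valuation K (f 0 - f 1) = 1 := by
      rw [mul_assoc] at hΔ
      have := one_of_mul p01 (mul_le_one' p02 p12) hΔ
      exact (pow_eq_one_iff_of_nonneg zero_le two_ne_zero).1 this
    have s02 : v.valuation K (f 0 - f 2) = 1 := by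
      rw [mul_assoc, mul_left_comm] at hΔ
      have := one_of_mul p02 (mul_le_one' p01 p12) hΔ
      exact (pow_eq_one_iff_of_nonneg zero_le two_ne_zero).1 this
    have s12 : v.valuation K (f 1 - f 2) = 1 := by
      rw [mul_comm] at hΔ
      have := one_of_mul p12 (mul_le_one' p01 p02) hΔ
      exact (pow_eq_one_iff_of_nonneg zero_le two_ne_zero).1 this
    have r1 : (e 2 - e 0) / (e 1 - e 0) = (f 0 - f 2) / (f 0 - f 1) := by
      rw [hfd, hfd, mul_div_mul_left _ _ hu, ← neg_sub (e 2) (e 0), ← neg_sub (e 1) (e 0),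
        neg_div_neg_eq]
    have r2 : (e 1 - e 2) / (e 1 - e 0) = -((f 1 - f 2) / (f 0 - f 1)) := by
      rw [hfd, hfd, mul_div_mul_left _ _ hu, ← neg_sub (e 1) (e 0), div_neg, neg_neg]
    rw [e1, r1, r2, map_div₀, Valuation.map_neg, map_div₀, s01, s02, s12, div_one]
    exact ⟨rfl, rfl⟩

end Pool.Agent.Y729.FW
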