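import Mathlib
import Pool.Agent.TH876.FH.Hj
import Pool.Agent.H691R3.Global

/-!
# The heights of the modular invariant and of the Legendre parameter, with constants which depend on
the degree of the field only
-/

set_option autoImplicit false

namespace Pool.Agent.Y729.FW

open NumberField IsDedekindDomain
open Pool.Agent.H691R3 (fv fv_na log_max_support_finite log_product_formula)
open Pool.Agent.TH876.FH (Hj_height)

section one

variable {K : Type} [Field K]

theorem abs_sub_le (f : AbsoluteValue K ℝ) (a b : K) : f (a - b) ≤ f a + f b := by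
  rw [sub_eq_add_neg]
  refine (f.add_le _ _).trans ?_
  rw [f.map_neg]

/-- `log max (|x|, 1)` -/
noncomputable def lp (f : AbsoluteValue K ℝ) (x : K) : ℝ := Real.log (max (f x) 1)

theorem lp_nonneg (f : AbsoluteValue K ℝ) (x : K) : 0 ≤ lp f x := Real.log_nonneg (le_max_right _ _)

/-- the sum of the local heights of `l, 1 / l, 1 / (1 - l)` -/
noncomputable def tri (f : AbsoluteValue K ℝ) (l : K) : ℝ := lp f l + lp f l⁻¹ + lp f (1 - l)⁻¹

theorem tri_exp (f : AbsoluteValue K ℝ) (l : K) :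
    Real.exp (tri f l) = max (f l) 1 * max (f l)⁻¹ 1 * max (f (1 - l))⁻¹ 1 := by
  unfold tri lp
  rw [Real.exp_add, Real.exp_add, Real.exp_log (lt_max_of_lt_right one_pos),
    Real.exp_log (lt_max_of_lt_right one_pos), Real.exp_log (lt_max_of_lt_right one_pos),
    map_inv₀, map_inv₀]

theorem real_one {a b : ℝ} (ha : 0 < a) (hb : 0 < b) (hab2 : b ≤ 1 + a) (hab3 : a ≤ 1 + b) :
    (max a 1 * max a⁻¹ 1 * max b⁻¹ 1) ^ 2 ≤ 2 * (a * b) + 144 * ((a * b) ^ 2)⁻¹ := by
  have hab0 : 0 < a * b := mul_pos ha hb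
  by_cases hbig : 2 ≤ a
  · have e1 : max a 1 = a := max_eq_left (by linarith)
    have e2 : max a⁻¹ 1 = 1 := max_eq_right (inv_le_one_of_one_le₀ (by linarith))
    have e3 : max b⁻¹ 1 = 1 := max_eq_right (inv_le_one_of_one_le₀ (by linarith))
    rw [e1, e2, e3, mul_one, mul_one]
    have h5 : a / 2 ≤ b := by linarith
    have h6 : a * (a / 2) ≤ a * b := mul_le_mul_of_nonneg_left h5 ha.le
    have h7 : 0 < ((a * b) ^ 2)⁻¹ := by positivity
    linarith [sq a]
  · rw [not_le] at hbig
    have i1 := inv_pos.2 ha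
    have i2 := inv_pos.2 hb
    have e1 : max a 1 ≤ 2 := max_le hbig.le (by norm_num)
    have e2 : max a⁻¹ 1 ≤ 2 * a⁻¹ := by
      refine max_le (by linarith) ?_
      have h1 : a * a⁻¹ = 1 := mul_inv_cancel₀ ha.ne'
      have h2 : a * a⁻¹ ≤ 2 * a⁻¹ := mul_le_mul_of_nonneg_right hbig.le i1.le
      linarith
    have e3 : max b⁻¹ 1 ≤ 3 * b⁻¹ := by
      refine max_le (by linarith) ?_
      have h1 : b * b⁻¹ = 1 := mul_inv_cancel₀ hb.ne'
      have h2 : b * b⁻¹ ≤ 3 * b⁻¹ := mul_le_mul_of_nonneg_right (by linarith) i2.le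
      linarith
    have e4 : max a 1 * max a⁻¹ 1 * max b⁻¹ 1 ≤ 2 * (2 * a⁻¹) * (3 * b⁻¹) := by gcongr
    have e5 : (max a 1 * max a⁻¹ 1 * max b⁻¹ 1) ^ 2 ≤ (2 * (2 * a⁻¹) * (3 * b⁻¹)) ^ 2 :=
      pow_le_pow_left₀ (by positivity) e4 2
    have e6 : (2 * (2 * a⁻¹) * (3 * b⁻¹)) ^ 2 = 144 * ((a * b) ^ 2)⁻¹ := by
      rw [mul_pow a b, mul_inv, ← inv_pow, ← inv_pow]
      ring
    linarith

theorem real_two {a b J : ℝ} (ha : 0 < a) (hb : 0 < b) (hab2 : b ≤ 1 + a) (hab3 : a ≤ 1 + b)
    (hJ : J * (a * b) ^ 2 ≤ 256 * (1 + a * b) ^ 3) :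
    J ≤ 1000000 * (max a 1 * max a⁻¹ 1 * max b⁻¹ 1) ^ 2 := by
  have hab0 : 0 < a * b := mul_pos ha hb
  by_cases hbig : 2 ≤ a
  · have e1 : max a 1 = a := max_eq_left (by linarith)
    have e2 : max a⁻¹ 1 = 1 := max_eq_right (inv_le_one_of_one_le₀ (by linarith))
    have e3 : max b⁻¹ 1 = 1 := max_eq_right (inv_le_one_of_one_le₀ (by linarith))
    rw [e1, e2, e3, mul_one, mul_one]
    have h5 : (1 : ℝ) ≤ b := by linarith
    have h6 : 1 ≤ a * b := by
      calc (1 : ℝ) = 1 * 1 := by norm_num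
        _ ≤ a * b := mul_le_mul (by linarith) h5 (by norm_num) ha.le
    have h7 : (1 + a * b) ^ 3 ≤ (2 * (a * b)) ^ 3 :=
      pow_le_pow_left₀ (by positivity) (by linarith) 3
    have h8 : J * (a * b) ^ 2 ≤ 2048 * (a * b) * (a * b) ^ 2 := by
      calc J * (a * b) ^ 2 ≤ 256 * (1 + a * b) ^ 3 := hJ
        _ ≤ 256 * (2 * (a * b)) ^ 3 := by linarith
        _ = _ := by ring
    have h9 : J ≤ 2048 * (a * b) := le_of_mul_le_mul_right h8 (by positivity)
    have h10 : b ≤ 2 * a := by linarith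
    have h11 : a * b ≤ a * (2 * a) := mul_le_mul_of_nonneg_left h10 ha.le
    have h12 : 0 ≤ a ^ 2 := sq_nonneg a
    have h13 : a * (2 * a) = 2 * a ^ 2 := by ring
    linarith
  · rw [not_le] at hbig
    have hb3 : b ≤ 3 := by linarith
    have h6 : a * b ≤ 2 * 3 := mul_le_mul hbig.le hb3 hb.le (by norm_num)
    have h7 : (1 + a * b) ^ 3 ≤ 7 ^ 3 := pow_le_pow_left₀ (by positivity) (by linarith) 3
    have h8 : J * (a * b) ^ 2 ≤ 87808 := by
      calc J * (a * b) ^ 2 ≤ 256 * (1 + a * b) ^ 3 := hJ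
        _ ≤ 256 * 7 ^ 3 := by linarith
        _ = _ := by norm_num
    have h9 : (a * b)⁻¹ ≤ max a 1 * max a⁻¹ 1 * max b⁻¹ 1 := by
      rw [mul_inv]
      have e1 := le_max_right a 1
      have e2 := le_max_left a⁻¹ 1
      have e3 := le_max_left b⁻¹ 1
      have i1 := inv_pos.2 ha
      have i2 := inv_pos.2 hb
      calc a⁻¹ * b⁻¹ = 1 * a⁻¹ * b⁻¹ := by ring
        _ ≤ _ := by gcongr
    have h10 : ((a * b)⁻¹) ^ 2 ≤ (max a 1 * max a⁻¹ 1 * max b⁻¹ 1) ^ 2 :=
      pow_le_pow_left₀ (by positivity) h9 2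
    have h11 : J ≤ 87808 * ((a * b)⁻¹) ^ 2 := by
      have h12 : ((a * b)⁻¹) ^ 2 = 1 / (a * b) ^ 2 := by
        rw [inv_pow, one_div]
      rw [h12, mul_one_div, le_div_iff₀ (by positivity)]
      exact h8
    have h12 : (0 : ℝ) ≤ (max a 1 * max a⁻¹ 1 * max b⁻¹ 1) ^ 2 := sq_nonneg _
    linarith

/-- `s = |l (1 - l)|`, `U = |1 - l (1 - l)|`, `J = |j|` -/
theorem real_three {s J U M : ℝ} (hs : 0 < s) (hM : 1 ≤ M) (hJM : J ≤ M)
    (hU1 : s - 1 ≤ U) (hU2 : 1 - s ≤ U) (hJ : J * s ^ 2 = 256 * U ^ 3) :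
    s ≤ 1000 * M ∧ 1 ≤ 10 * M * s ^ 2 := by
  have hJs : J * s ^ 2 ≤ M * s ^ 2 := mul_le_mul_of_nonneg_right hJM (by positivity)
  constructor
  · by_cases h4 : s ≤ 1000
    · linarith
    · rw [not_le] at h4
      have h5 : (s / 2) ^ 3 ≤ U ^ 3 := pow_le_pow_left₀ (by positivity) (by linarith) 3
      have h7 : 32 * s ≤ M := by
        have h8 : 32 * s * s ^ 2 ≤ M * s ^ 2 := by
          calc 32 * s * s ^ 2 = 256 * (s / 2) ^ 3 := by ring
            _ ≤ 256 * U ^ 3 := by linarith
            _ ≤ _ := by linarith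
        exact le_of_mul_le_mul_right h8 (by positivity)
      linarith
  · by_cases h4 : s < 1 / 2
    · have h5 : (1 / 2 : ℝ) ≤ U := by linarith
      have h6 : (1 / 2 : ℝ) ^ 3 ≤ U ^ 3 := pow_le_pow_left₀ (by norm_num) h5 3
      have h8 : (32 : ℝ) ≤ M * s ^ 2 := by
        calc (32 : ℝ) = 256 * (1 / 2 : ℝ) ^ 3 := by norm_num
          _ ≤ 256 * U ^ 3 := by linarith
          _ ≤ _ := by linarith
      linarith
    · rw [not_lt] at h4
      have h5 : (1 / 2 : ℝ) ^ 2 ≤ s ^ 2 := pow_le_pow_left₀ (by norm_num) h4 2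
      have h6 : 1 * (1 / 2 : ℝ) ^ 2 ≤ M * s ^ 2 := mul_le_mul hM h5 (by norm_num) (by linarith)
      linarith

/-- the comparison at an archimedean place -/
theorem arch_cmp (f : AbsoluteValue K ℝ) (hint : ∀ n : ℕ, f (n : K) = n) {l j : K} (h0 : l ≠ 0)
    (h1 : l ≠ 1) (h : j * (l ^ 2 * (1 - l) ^ 2) = 256 * (l ^ 2 - l + 1) ^ 3) :
    2 * tri f l ≤ lp f j + Real.log 1000000 ∧ lp f j ≤ 2 * tri f l + Real.log 1000000 := by
  have hl : 0 < f l := f.pos h0
  have h1' : (1 : K) - l ≠ 0 := sub_ne_zero.2 h1.symm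
  have hm : 0 < f (1 - l) := f.pos h1'
  set a := f l with ha
  set b := f (1 - l) with hb
  have hone : f 1 = 1 := f.map_one
  have hab1 : 1 ≤ a + b := by
    have := f.add_le l (1 - l)
    rw [add_sub_cancel, hone] at this
    exact this
  have hab2 : b ≤ 1 + a := by
    have := abs_sub_le f 1 l
    rw [hone] at this
    exact this
  have hab3 : a ≤ 1 + b := by
    have h2 := abs_sub_le f 1 (1 - l)
    rw [hone, sub_sub_cancel] at h2
    exact h2
  set M : ℝ := max (f j) 1 with hM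
  have hM1 : 1 ≤ M := le_max_right _ _
  have hM0 : 0 < M := by linarith
  have hjM : f j ≤ M := le_max_left _ _
  have hexp := tri_exp f l
  rw [← ha, ← hb] at hexp
  -- the value of `j`
  set u : K := l * (1 - l) with hu
  have hfu : f u = a * b := by rw [hu, map_mul]
  have hrel : j * u ^ 2 = 256 * (1 - u) ^ 3 := by
    rw [hu]
    linear_combination h
  have h256 : f (256 : K) = 256 := by exact_mod_cast hint 256
  have hfj : f j * (a * b) ^ 2 = 256 * f (1 - u) ^ 3 := by
    have := congrArg f hrel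
    rwa [map_mul, map_pow, hfu, map_mul, map_pow, h256] at this
  have hu1 : f (1 - u) ≤ 1 + a * b := by
    have := abs_sub_le f 1 u
    rw [hone, hfu] at this
    exact this
  have hu2 : a * b - 1 ≤ f (1 - u) := by
    have h3 : f u ≤ f 1 + f (1 - u) := by
      have := abs_sub_le f 1 (1 - u)
      rwa [sub_sub_cancel] at this
    rw [hone, hfu] at h3
    linarith
  have hu3 : 1 - a * b ≤ f (1 - u) := by
    have h6 : f 1 ≤ f u + f (1 - u) := by
      have := f.add_le u (1 - u)
      rwa [add_sub_cancel] at this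
    rw [hone, hfu] at h6
    linarith
  have hab0 : 0 < a * b := mul_pos hl hm
  obtain ⟨k1, k3⟩ := real_three hab0 hM1 hjM hu2 hu3 hfj
  set E : ℝ := Real.exp (tri f l) with hE
  have hE0 : 0 < E := Real.exp_pos _
  -- upper bound for `E ^ 2`
  have key1 : E ^ 2 ≤ 1000000 * M := by
    have e5 := real_one hl hm hab2 hab3
    rw [← hexp] at e5
    have e7 : ((a * b) ^ 2)⁻¹ ≤ 10 * M := by
      rw [inv_le_iff_one_le_mul₀ (by positivity)]
      linarith
    linarith
  have key2 : M ≤ 1000000 * E ^ 2 := by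
    have hE1 : 1 ≤ E := by
      rw [hexp]
      have e1 := le_max_right a 1
      have e2 := le_max_right a⁻¹ 1
      have e3 := le_max_right b⁻¹ 1
      calc (1 : ℝ) = 1 * 1 * 1 := by norm_num
        _ ≤ _ := by gcongr
    have hE2 : (1 : ℝ) ≤ E ^ 2 := one_le_pow₀ hE1
    rw [hM]
    refine max_le ?_ (by linarith)
    rw [hexp]
    refine real_two hl hm hab2 hab3 ?_
    rw [hfj]
    have h5 : f (1 - u) ^ 3 ≤ (1 + a * b) ^ 3 := pow_le_pow_left₀ (f.nonneg _) hu1 3
    linarith
  have l1 : Real.log (E ^ 2) = 2 * tri f l := by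
    rw [hE, ← Real.exp_nat_mul, Real.log_exp]
    norm_num
  constructor
  · rw [← l1]
    unfold lp
    rw [← hM, ← Real.log_mul hM0.ne' (by norm_num)]
    apply Real.log_le_log (by positivity)
    linarith
  · rw [← l1]
    unfold lp
    rw [← hM, ← Real.log_mul (by positivity) (by norm_num)]
    apply Real.log_le_log hM0
    linarith

/-- the comparison at a nonarchimedean place -/
theorem na_cmp (f : AbsoluteValue K ℝ) (hna : ∀ a b : K, f (a + b) ≤ max (f a) (f b))
    {l j : K} (h0 : l ≠ 0) (h1 : l ≠ 1)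
    (h : j * (l ^ 2 * (1 - l) ^ 2) = 256 * (l ^ 2 - l + 1) ^ 3) (h256 : (256 : K) ≠ 0) :
    2 * tri f l ≤ lp f j - Real.log (f 256) ∧ lp f j ≤ 2 * tri f l := by
  have hl : 0 < f l := f.pos h0
  have h1' : (1 : K) - l ≠ 0 := sub_ne_zero.2 h1.symm
  have hm : 0 < f (1 - l) := f.pos h1'
  have hone : f 1 = 1 := f.map_one
  have hnat : ∀ n : ℕ, f (n : K) ≤ 1 := by
    intro n
    induction n with
    | zero => simp
    | succ n ih =>
      push_cast
      exact (hna _ _).trans (max_le ih hone.le)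
  have hc1 : f (256 : K) ≤ 1 := by exact_mod_cast hnat 256
  have hc0 : 0 < f (256 : K) := f.pos h256
  have hneg : ∀ x : K, f (-x) = f x := fun x => f.map_neg x
  have hlt : ∀ x y : K, f x < f y → f (x + y) = f y := by
    intro x y hxy
    refine le_antisymm ((hna _ _).trans (max_le hxy.le le_rfl)) ?_
    by_contra hc
    rw [not_le] at hc
    have h2 : f y ≤ max (f (x + y)) (f (-x)) := by
      have := hna (x + y) (-x)
      rwa [add_neg_cancel_comm] at this
    rw [hneg] at h2
    exact absurd h2 (not_le.2 (max_lt hc hxy))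
  set t : K := (l ^ 2 - l + 1) ^ 3 / (l ^ 2 * (1 - l) ^ 2) with ht
  have hden : l ^ 2 * (1 - l) ^ 2 ≠ 0 := mul_ne_zero (pow_ne_zero _ h0) (pow_ne_zero _ h1')
  have hj : j = 256 * t := by
    rw [ht, ← mul_div_assoc, eq_div_iff hden]
    exact h
  have hft : f t = f (l ^ 2 - l + 1) ^ 3 / (f l ^ 2 * f (1 - l) ^ 2) := by
    rw [ht, map_div₀, map_pow, map_mul, map_pow, map_pow]
  have key : max (f t) 1 = Real.exp (tri f l) ^ 2 := by
    rw [tri_exp, hft]
    rcases lt_trichotomy (f l) 1 with hlt1 | heq | hgt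
    · -- `|l| < 1`
      have e1 : f (1 - l) = 1 := by
        have h2 := hlt (-l) 1 (by rw [hneg, hone]; exact hlt1)
        rw [neg_add_eq_sub, hone] at h2
        exact h2
      have e2 : f (l ^ 2 - l + 1) = 1 := by
        have h3 : l ^ 2 - l + 1 = -(l * (1 - l)) + 1 := by ring
        have h4 : f (-(l * (1 - l))) < f 1 := by
          rw [hneg, map_mul, e1, mul_one, hone]
          exact hlt1
        rw [h3, hlt _ _ h4, hone]
      rw [e1, e2, inv_one, max_self, max_eq_right hlt1.le]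
      have h5 : 1 ≤ (f l)⁻¹ := (one_le_inv₀ hl).2 hlt1.le
      rw [max_eq_left h5]
      have h6 : (1 : ℝ) ^ 3 / (f l ^ 2 * 1 ^ 2) = ((f l)⁻¹) ^ 2 := by
        field_simp
      rw [h6, max_eq_left (one_le_pow₀ h5)]
      ring
    · -- `|l| = 1`
      have e1 : f (1 - l) ≤ 1 := by
        have h2 := hna 1 (-l)
        rw [← sub_eq_add_neg, hneg, heq, hone, max_self] at h2
        exact h2
      rw [heq, inv_one, max_self, one_mul, one_mul]
      rcases lt_or_eq_of_le e1 with e1 | e1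
      · have e2 : f (l ^ 2 - l + 1) = 1 := by
          have h3 : l ^ 2 - l + 1 = -(l * (1 - l)) + 1 := by ring
          have h4 : f (-(l * (1 - l))) < f 1 := by
            rw [hneg, map_mul, heq, one_mul, hone]
            exact e1
          rw [h3, hlt _ _ h4, hone]
        rw [e2]
        have h5 : 1 ≤ (f (1 - l))⁻¹ := (one_le_inv₀ hm).2 e1.le
        have h6 : (1 : ℝ) ^ 3 / (1 ^ 2 * f (1 - l) ^ 2) = ((f (1 - l))⁻¹) ^ 2 := by
          field_simp
        rw [h6, max_eq_left h5, max_eq_left (one_le_pow₀ h5)]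
      · rw [e1, inv_one, max_self]
        have e2 : f (l ^ 2 - l + 1) ≤ 1 := by
          have h3 : l ^ 2 - l + 1 = -(l * (1 - l)) + 1 := by ring
          rw [h3]
          refine (hna _ _).trans (max_le ?_ hone.le)
          rw [hneg, map_mul, heq, e1, one_mul]
        have h6 : f (l ^ 2 - l + 1) ^ 3 / (1 ^ 2 * 1 ^ 2) ≤ 1 := by
          rw [one_pow, mul_one, div_one]
          exact pow_le_one₀ (f.nonneg _) e2
        rw [max_eq_right h6]
        norm_num
    · -- `|l| > 1`
      have e1 : f (1 - l) = f l := by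
        have h2 := hlt 1 (-l) (by rw [hneg, hone]; exact hgt)
        rw [← sub_eq_add_neg, hneg] at h2
        exact h2
      have e2 : f (l ^ 2 - l + 1) = f l ^ 2 := by
        have h3 : l ^ 2 - l + 1 = 1 + -(l * (1 - l)) := by ring
        have h4 : f 1 < f (-(l * (1 - l))) := by
          rw [hneg, map_mul, e1, hone]
          nlinarith
        rw [h3, hlt _ _ h4, hneg, map_mul, e1, sq]
      rw [e1, e2, max_eq_left hgt.le]
      have h5 : (f l)⁻¹ ≤ 1 := inv_le_one_of_one_le₀ hgt.le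
      rw [max_eq_right h5]
      have h6 : (f l ^ 2) ^ 3 / (f l ^ 2 * f l ^ 2) = f l ^ 2 := by
        field_simp
      rw [h6, max_eq_left (one_le_pow₀ hgt.le)]
      ring
  have l1 : Real.log (max (f t) 1) = 2 * tri f l := by
    rw [key, ← Real.exp_nat_mul, Real.log_exp]
    norm_num
  have hfj : f j = f 256 * f t := by rw [hj, map_mul]
  constructor
  · rw [← l1]
    unfold lp
    have h2 : max (f t) 1 * f 256 ≤ max (f j) 1 := by
      rw [max_mul_of_nonneg _ _ hc0.le, one_mul, hfj]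
      refine max_le ?_ (hc1.trans (le_max_right _ _))
      rw [mul_comm]
      exact le_max_left _ _
    have h3 : Real.log (max (f t) 1 * f 256) ≤ Real.log (max (f j) 1) :=
      Real.log_le_log (mul_pos (lt_max_of_lt_right one_pos) hc0) h2
    rw [Real.log_mul (lt_max_of_lt_right one_pos).ne' hc0.ne'] at h3
    linarith
  · rw [← l1]
    unfold lp
    apply Real.log_le_log (lt_max_of_lt_right one_pos)
    refine max_le ?_ (le_max_right _ _)
    rw [hfj]
    calc f 256 * f t ≤ 1 * f t := mul_le_mul_of_nonneg_right hc1 (f.nonneg _)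
      _ = f t := one_mul _
      _ ≤ _ := le_max_left _ _

end one

section glob

variable {K : Type} [Field K] [NumberField K]

/-- the height as a sum of local heights -/
theorem lh_eq (x : K) : Height.logHeight₁ x =
    ∑ w : InfinitePlace K, (w.mult : ℝ) * lp w.1 x +
      ∑ᶠ v : HeightOneSpectrum (𝓞 K), lp (fv v) x := Hj_height x

theorem sum_mult : ∑ w : InfinitePlace K, (w.mult : ℝ) = (Module.finrank ℚ K : ℝ) := by
  rw [← Nat.cast_sum, NumberField.InfinitePlace.sum_mult_eq]

theorem lp_support (x : K) :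
    (Function.support fun v : HeightOneSpectrum (𝓞 K) => lp (fv v) x).Finite := by
  have h := log_max_support_finite (K := K) (p := (x, 1)) (by
    intro h
    exact one_ne_zero (congrArg Prod.snd h))
  refine h.subset ?_
  intro v hv
  simp only [Function.mem_support, lp, map_one] at hv ⊢
  exact hv

theorem w_nat (w : InfinitePlace K) (n : ℕ) : w.1 (n : K) = n := by
  have : w.1 (n : K) = ‖w.embedding (n : K)‖ := (InfinitePlace.norm_embedding_eq w _).symm
  rw [this, map_natCast]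
  simp

/-- `h(1 - l) ≤ h(l) + n log 2` -/
theorem lh_one_sub (l : K) :
    Height.logHeight₁ (1 - l) ≤ Height.logHeight₁ l + Module.finrank ℚ K * Real.log 2 := by
  rw [lh_eq, lh_eq, ← sum_mult, Finset.sum_mul]
  have h1 : ∑ w : InfinitePlace K, (w.mult : ℝ) * lp w.1 (1 - l) ≤
      ∑ w : InfinitePlace K, (w.mult : ℝ) * lp w.1 l +
        ∑ w : InfinitePlace K, (w.mult : ℝ) * Real.log 2 := by
    rw [← Finset.sum_add_distrib]
    refine Finset.sum_le_sum fun w _ => ?_
    rw [← mul_add]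
    apply mul_le_mul_of_nonneg_left _ (Nat.cast_nonneg _)
    unfold lp
    rw [← Real.log_mul (lt_max_of_lt_right one_pos).ne' two_ne_zero]
    apply Real.log_le_log (lt_max_of_lt_right one_pos)
    have h2 := abs_sub_le w.1 1 l
    rw [map_one] at h2
    have h3 := le_max_left (w.1 l) 1
    have h4 := le_max_right (w.1 l) 1
    refine max_le ?_ ?_ <;> linarith
  have h2 : ∑ᶠ v : HeightOneSpectrum (𝓞 K), lp (fv v) (1 - l) ≤
      ∑ᶠ v : HeightOneSpectrum (𝓞 K), lp (fv v) l := by
    refine finsum_le_finsum' (lp_support _) (lp_support _) fun v => ?_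
    unfold lp
    apply Real.log_le_log (lt_max_of_lt_right one_pos)
    refine max_le ?_ (le_max_right _ _)
    have h3 := fv_na v 1 (-l)
    rw [← sub_eq_add_neg, AbsoluteValue.map_neg, map_one, max_comm] at h3
    exact h3
  linarith

/-- the heights of the modular invariant and of the Legendre parameter -/
theorem six_height : ∃ c : ℝ, 0 ≤ c ∧ ∀ (K : Type) [Field K] [NumberField K] (j l : K), l ≠ 0 →
    l ≠ 1 → j * (l ^ 2 * (1 - l) ^ 2) = 256 * (l ^ 2 - l + 1) ^ 3 →
    6 * Height.logHeight₁ l ≤ Height.logHeight₁ j + c * Module.finrank ℚ K ∧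
    Height.logHeight₁ j ≤ 6 * Height.logHeight₁ l + c * Module.finrank ℚ K := by
  refine ⟨Real.log 1000000 + Real.log 256 + 2 * Real.log 2, by positivity, ?_⟩
  intro K _ _ j l h0 h1 h
  set n : ℝ := (Module.finrank ℚ K : ℝ) with hn
  have hn0 : 0 ≤ n := Nat.cast_nonneg _
  have h1' : (1 : K) - l ≠ 0 := sub_ne_zero.2 h1.symm
  have h256 : (256 : K) ≠ 0 := by norm_num
  set T : ℝ := Height.logHeight₁ l + Height.logHeight₁ l⁻¹ + Height.logHeight₁ (1 - l)⁻¹ with hT
  have hTeq : T = ∑ w : InfinitePlace K, (w.mult : ℝ) * tri w.1 l +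
      ∑ᶠ v : HeightOneSpectrum (𝓞 K), tri (fv v) l := by
    rw [hT, lh_eq, lh_eq, lh_eq]
    have e1 : ∑ w : InfinitePlace K, (w.mult : ℝ) * tri w.1 l =
        ∑ w : InfinitePlace K, (w.mult : ℝ) * lp w.1 l +
        ∑ w : InfinitePlace K, (w.mult : ℝ) * lp w.1 l⁻¹ +
        ∑ w : InfinitePlace K, (w.mult : ℝ) * lp w.1 (1 - l)⁻¹ := by
      rw [← Finset.sum_add_distrib, ← Finset.sum_add_distrib]
      refine Finset.sum_congr rfl fun w _ => ?_
      unfold tri
      ring
    have e2 : ∑ᶠ v : HeightOneSpectrum (𝓞 K), tri (fv v) l =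
        ∑ᶠ v : HeightOneSpectrum (𝓞 K), lp (fv v) l +
        ∑ᶠ v : HeightOneSpectrum (𝓞 K), lp (fv v) l⁻¹ +
        ∑ᶠ v : HeightOneSpectrum (𝓞 K), lp (fv v) (1 - l)⁻¹ := by
      rw [← finsum_add_distrib (lp_support _) (lp_support _), ← finsum_add_distrib _ (lp_support _)]
      · rfl
      · refine ((lp_support l).union (lp_support l⁻¹)).subset ?_
        intro v hv
        by_contra hc
        simp only [Set.mem_union, Function.mem_support, not_or, not_not] at hc
        apply hv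
        simp only
        rw [hc.1, hc.2, add_zero]
    rw [e1, e2]
    ring
  have htsupp : (Function.support fun v : HeightOneSpectrum (𝓞 K) => 2 * tri (fv v) l).Finite := by
    refine ((lp_support l).union ((lp_support l⁻¹).union (lp_support (1 - l)⁻¹))).subset ?_
    intro v hv
    by_contra hc
    simp only [Set.mem_union, Function.mem_support, not_or, not_not] at hc
    apply hv
    simp only
    unfold tri
    rw [hc.1, hc.2.1, hc.2.2]
    ring
  have hpf := log_product_formula (K := K) h256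
  have hpf1 : ∑ w : InfinitePlace K, (w.mult : ℝ) * Real.log (w (256 : K)) = n * Real.log 256 := by
    rw [hn, ← sum_mult, Finset.sum_mul]
    refine Finset.sum_congr rfl fun w _ => ?_
    have : w (256 : K) = 256 := by exact_mod_cast w_nat w 256
    rw [this]
  have hlsupp : (Function.support fun v : HeightOneSpectrum (𝓞 K) => Real.log (fv v 256)).Finite :=
    Pool.Agent.H691R3.log_fv_support_finite h256
  have hA1 : ∑ w : InfinitePlace K, (w.mult : ℝ) * (2 * tri w.1 l) ≤
      ∑ w : InfinitePlace K, (w.mult : ℝ) * lp w.1 j + n * Real.log 1000000 := by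
    rw [hn, ← sum_mult, Finset.sum_mul, ← Finset.sum_add_distrib]
    refine Finset.sum_le_sum fun w _ => ?_
    rw [← mul_add]
    exact mul_le_mul_of_nonneg_left (arch_cmp w.1 (w_nat w) h0 h1 h).1 (Nat.cast_nonneg _)
  have hA2 : ∑ w : InfinitePlace K, (w.mult : ℝ) * lp w.1 j ≤
      ∑ w : InfinitePlace K, (w.mult : ℝ) * (2 * tri w.1 l) + n * Real.log 1000000 := by
    rw [hn, ← sum_mult, Finset.sum_mul, ← Finset.sum_add_distrib]
    refine Finset.sum_le_sum fun w _ => ?_
    rw [← mul_add]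
    exact mul_le_mul_of_nonneg_left (arch_cmp w.1 (w_nat w) h0 h1 h).2 (Nat.cast_nonneg _)
  have hB1 : ∑ᶠ v : HeightOneSpectrum (𝓞 K), 2 * tri (fv v) l ≤
      ∑ᶠ v : HeightOneSpectrum (𝓞 K), lp (fv v) j -
        ∑ᶠ v : HeightOneSpectrum (𝓞 K), Real.log (fv v 256) := by
    rw [← finsum_sub_distrib (lp_support j) hlsupp]
    refine finsum_le_finsum' htsupp ?_ fun v => (na_cmp (fv v) (fv_na v) h0 h1 h h256).1
    refine ((lp_support j).union hlsupp).subset ?_
    intro v hv
    by_contra hc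
    simp only [Set.mem_union, Function.mem_support, not_or, not_not] at hc
    apply hv
    simp only
    rw [hc.1, hc.2, sub_zero]
  have hB2 : ∑ᶠ v : HeightOneSpectrum (𝓞 K), lp (fv v) j ≤
      ∑ᶠ v : HeightOneSpectrum (𝓞 K), 2 * tri (fv v) l :=
    finsum_le_finsum' (lp_support j) htsupp fun v => (na_cmp (fv v) (fv_na v) h0 h1 h h256).2
  have h2T : 2 * T = ∑ w : InfinitePlace K, (w.mult : ℝ) * (2 * tri w.1 l) +
      ∑ᶠ v : HeightOneSpectrum (𝓞 K), 2 * tri (fv v) l := by
    rw [hTeq, mul_add, Finset.mul_sum, mul_finsum]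
    congr 1
    refine Finset.sum_congr rfl fun w _ => ?_
    ring
  have hj := lh_eq j
  have i1 : Height.logHeight₁ l⁻¹ = Height.logHeight₁ l := Height.logHeight₁_inv l
  have i2 : Height.logHeight₁ (1 - l)⁻¹ = Height.logHeight₁ (1 - l) := Height.logHeight₁_inv _
  have i3 := lh_one_sub l
  have i4 := lh_one_sub (1 - l)
  rw [sub_sub_cancel] at i4
  rw [i1, i2] at hT
  rw [← hn] at i3 i4
  constructor <;> nlinarith

end glob

end Pool.Agent.Y729.FW
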