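import Mathlib
import Pool.Agent.TH876.FH.Ana
import Pool.Agent.TH876.TT.Bad
import Pool.Agent.TH876.TT.Viol
import Pool.Agent.W222.UABC.Main
import Pool.Agent.Y729.FW.Leg
import Pool.Agent.Y729.FW.Ht

/-!
# The conductor of the Legendre parameter and the bad primes; the Faltings height
-/

set_option autoImplicit false

namespace Pool.Agent.Y729.FW

open NumberField IsDedekindDomain
open Pool.Agent.H691R3 (fv fv_na log_max_support_finite log_product_formula fv_zpow)
open Pool.Agent.TH876.FH (Hj_height Hj_faltings Hj_norm faltings IsPeriod arch jInv FullTwo GoodAt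
  badNorm)

section fal

theorem fal_one {δ : ℝ} (hδ : 0 < δ) : ∃ c : ℝ, 0 ≤ c ∧
    ∀ (K : Type) [Field K] [NumberField K] (j : K) (τ : InfinitePlace K → UpperHalfPlane),
      IsPeriod j τ → Height.logHeight₁ j ≤
        (1 + δ) * (12 * Module.finrank ℚ K * faltings j τ) + c * Module.finrank ℚ K := by
  obtain ⟨c, hc⟩ := Pool.Agent.TH876.FH.ana.1 δ hδ
  refine ⟨|c|, abs_nonneg c, ?_⟩
  intro K _ _ j τ hj
  rw [Hj_height, Hj_faltings, ← sum_mult]
  have h1 : ∑ w : InfinitePlace K, (w.mult : ℝ) * Real.log (max (w j) 1) ≤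
      ∑ w : InfinitePlace K, (w.mult : ℝ) * ((1 + δ) * arch (τ w) + |c|) := by
    refine Finset.sum_le_sum fun w _ => ?_
    apply mul_le_mul_of_nonneg_left _ (Nat.cast_nonneg _)
    rw [← Hj_norm j τ hj w]
    exact (hc (τ w)).trans (by linarith [le_abs_self c])
  have h2 : ∑ w : InfinitePlace K, (w.mult : ℝ) * ((1 + δ) * arch (τ w) + |c|) =
      (1 + δ) * ∑ w : InfinitePlace K, (w.mult : ℝ) * arch (τ w) +
        |c| * ∑ w : InfinitePlace K, (w.mult : ℝ) := by
    rw [Finset.mul_sum, Finset.mul_sum, ← Finset.sum_add_distrib]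
    refine Finset.sum_congr rfl fun w _ => ?_
    ring
  have h3 : 0 ≤ ∑ᶠ v : HeightOneSpectrum (𝓞 K), Real.log (max (FinitePlace.mk v j) 1) :=
    finsum_nonneg fun v => Real.log_nonneg (le_max_right _ _)
  nlinarith

theorem fal_two : ∃ c : ℝ, 0 ≤ c ∧
    ∀ (K : Type) [Field K] [NumberField K] (j : K) (τ : InfinitePlace K → UpperHalfPlane),
      IsPeriod j τ → 12 * Module.finrank ℚ K * faltings j τ ≤
        Height.logHeight₁ j + c * Module.finrank ℚ K := by
  obtain ⟨c, hc⟩ := Pool.Agent.TH876.FH.ana.2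
  refine ⟨|c|, abs_nonneg c, ?_⟩
  intro K _ _ j τ hj
  rw [Hj_height, Hj_faltings, ← sum_mult]
  have h1 : ∑ w : InfinitePlace K, (w.mult : ℝ) * arch (τ w) ≤
      ∑ w : InfinitePlace K, (w.mult : ℝ) * (Real.log (max (w j) 1) + |c|) := by
    refine Finset.sum_le_sum fun w _ => ?_
    apply mul_le_mul_of_nonneg_left _ (Nat.cast_nonneg _)
    rw [← Hj_norm j τ hj w]
    exact (hc (τ w)).trans (by linarith [le_abs_self c])
  have h2 : ∑ w : InfinitePlace K, (w.mult : ℝ) * (Real.log (max (w j) 1) + |c|) =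
      ∑ w : InfinitePlace K, (w.mult : ℝ) * Real.log (max (w j) 1) +
        |c| * ∑ w : InfinitePlace K, (w.mult : ℝ) := by
    rw [Finset.mul_sum, ← Finset.sum_add_distrib]
    refine Finset.sum_congr rfl fun w _ => ?_
    ring
  linarith

end fal

section cond

variable {K : Type} [Field K] [NumberField K]

theorem fv_eq_one_iff (v : HeightOneSpectrum (𝓞 K)) (x : K) :
    fv v x = 1 ↔ v.valuation K x = 1 := by
  have h : fv v x = ((WithZeroMulInt.toNNReal (NumberField.HeightOneSpectrum.absNorm_ne_zero v)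
      (v.valuation K x) : NNReal) : ℝ) := NumberField.FinitePlace.norm_embedding' (v := v) (x := x)
  have hN : 1 < Ideal.absNorm v.asIdeal := NumberField.HeightOneSpectrum.one_lt_absNorm v
  rw [h, NNReal.coe_eq_one, WithZeroMulInt.toNNReal_eq_one_iff]
  intro h1
  have h2 : Ideal.absNorm v.asIdeal = 1 := by exact_mod_cast h1
  omega

theorem logN_nonneg (v : HeightOneSpectrum (𝓞 K)) :
    0 ≤ Real.log (Ideal.absNorm v.asIdeal : ℝ) := Real.log_natCast_nonneg _

/-- the primes where `x` is not a unit contribute at most `- log |x|` -/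
theorem log_fv_le (v : HeightOneSpectrum (𝓞 K)) {x : K} (hx : x ≠ 0) (h1 : fv v x ≤ 1)
    (h2 : fv v x ≠ 1) : Real.log (Ideal.absNorm v.asIdeal : ℝ) ≤ -Real.log (fv v x) := by
  obtain ⟨k, hk⟩ := fv_zpow v hx
  have hN : (1 : ℝ) < (Ideal.absNorm v.asIdeal : ℝ) := by
    exact_mod_cast NumberField.HeightOneSpectrum.one_lt_absNorm v
  have hk' : fv v x = (Ideal.absNorm v.asIdeal : ℝ) ^ k := hk
  have hk0 : k < 0 := by
    by_contra hc
    rw [not_lt] at hc
    have h3 : 1 ≤ fv v x := by
      rw [hk']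
      exact one_le_zpow₀ hN.le hc
    exact h2 (le_antisymm h1 h3)
  rw [hk', Real.log_zpow]
  have hk1 : k ≤ -1 := by omega
  have hk2 : (k : ℝ) ≤ -1 := by exact_mod_cast hk1
  have := Real.log_pos hN
  nlinarith

theorem fv_natCast_le (v : HeightOneSpectrum (𝓞 K)) (m : ℕ) : fv v (m : K) ≤ 1 := by
  induction m with
  | zero => simp
  | succ m ih =>
    push_cast
    exact (fv_na v _ _).trans (max_le ih (map_one _).le)

/-- the primes above `m`: the sum of `log N(v)` over any finite set of them is at most `n log m` -/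
theorem primes_above (m : ℕ) (hm : m ≠ 0) (F : Finset (HeightOneSpectrum (𝓞 K)))
    (hF : ∀ v ∈ F, fv v (m : K) ≠ 1) :
    ∑ v ∈ F, Real.log (Ideal.absNorm v.asIdeal : ℝ) ≤ Module.finrank ℚ K * Real.log m := by
  have hm0 : (m : K) ≠ 0 := Nat.cast_ne_zero.2 hm
  have hpf := log_product_formula (K := K) hm0
  have hpf1 : ∑ w : InfinitePlace K, (w.mult : ℝ) * Real.log (w (m : K)) =
      Module.finrank ℚ K * Real.log m := by
    rw [← sum_mult, Finset.sum_mul]
    refine Finset.sum_congr rfl fun w _ => ?_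
    have : w (m : K) = m := w_nat w m
    rw [this]
  have hsupp : (Function.support fun v : HeightOneSpectrum (𝓞 K) => -Real.log (fv v (m : K))).Finite := by
    refine (Pool.Agent.H691R3.log_fv_support_finite hm0).subset ?_
    intro v hv
    rw [Function.mem_support] at hv ⊢
    intro h
    exact hv (by rw [h, neg_zero])
  have hnn : ∀ v : HeightOneSpectrum (𝓞 K), 0 ≤ -Real.log (fv v (m : K)) := by
    intro v
    have := Real.log_nonpos ((fv v).nonneg _) (fv_natCast_le v m)
    linarith
  have h1 : ∑ v ∈ F, Real.log (Ideal.absNorm v.asIdeal : ℝ) ≤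
      ∑ v ∈ F, -Real.log (fv v (m : K)) :=
    Finset.sum_le_sum fun v hv => log_fv_le v hm0 (fv_natCast_le v m) (hF v hv)
  have h2 : ∑ v ∈ F, -Real.log (fv v (m : K)) ≤
      ∑ᶠ v : HeightOneSpectrum (𝓞 K), -Real.log (fv v (m : K)) := by
    classical
    rw [finsum_eq_sum_of_support_subset (s := hsupp.toFinset ∪ F) _ (by
      intro v hv
      rw [Finset.coe_union, Set.Finite.coe_toFinset]
      exact Or.inl hv)]
    exact Finset.sum_le_sum_of_subset_of_nonneg Finset.subset_union_right fun v _ _ => hnn v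
  rw [finsum_neg_distrib] at h2
  linarith

/-- the sum over the primes of a set contained in the union of the bad primes and of the primes
above `m` -/
theorem sum_le_bad (m : ℕ) (hm : m ≠ 0) (E : WeierstrassCurve K) (hE : E.Δ ≠ 0)
    (S : Set (HeightOneSpectrum (𝓞 K))) (hS : ∀ v ∈ S, ¬ GoodAt v E ∨ fv v (m : K) ≠ 1) :
    ∑ᶠ (v : HeightOneSpectrum (𝓞 K)) (_ : v ∈ S), Real.log (Ideal.absNorm v.asIdeal : ℝ) ≤
      Real.log (badNorm E) + Module.finrank ℚ K * Real.log m := by
  classical
  have hbad := Pool.Agent.TH876.TT.bad K E hE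
  have hm0 : (m : K) ≠ 0 := Nat.cast_ne_zero.2 hm
  have h2 := Pool.Agent.H691R3.fv_support_finite hm0
  have hSfin : S.Finite := (hbad.union h2).subset fun v hv => by
    rcases hS v hv with h | h
    · exact Or.inl h
    · exact Or.inr h
  rw [finsum_mem_eq_finite_toFinset_sum _ hSfin]
  have hbn : Real.log (badNorm E) =
      ∑ v ∈ hbad.toFinset, Real.log (Ideal.absNorm v.asIdeal : ℝ) := by
    unfold badNorm
    rw [finprod_mem_eq_finite_toFinset_prod _ hbad, Real.log_prod]
    intro v _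
    have : (1 : ℝ) < (Ideal.absNorm v.asIdeal : ℝ) := by
      exact_mod_cast NumberField.HeightOneSpectrum.one_lt_absNorm v
    linarith
  have hsub : hSfin.toFinset ⊆ hbad.toFinset ∪ h2.toFinset := by
    intro v hv
    rw [Set.Finite.mem_toFinset] at hv
    rw [Finset.mem_union, Set.Finite.mem_toFinset, Set.Finite.mem_toFinset]
    rcases hS v hv with h | h
    · exact Or.inl h
    · exact Or.inr h
  calc ∑ v ∈ hSfin.toFinset, Real.log (Ideal.absNorm v.asIdeal : ℝ)
      ≤ ∑ v ∈ hbad.toFinset ∪ h2.toFinset, Real.log (Ideal.absNorm v.asIdeal : ℝ) :=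
        Finset.sum_le_sum_of_subset_of_nonneg hsub fun v _ _ => logN_nonneg v
    _ ≤ ∑ v ∈ hbad.toFinset, Real.log (Ideal.absNorm v.asIdeal : ℝ) +
        ∑ v ∈ h2.toFinset, Real.log (Ideal.absNorm v.asIdeal : ℝ) := by
        rw [← Finset.sum_union_inter]
        have : 0 ≤ ∑ v ∈ hbad.toFinset ∩ h2.toFinset, Real.log (Ideal.absNorm v.asIdeal : ℝ) :=
          Finset.sum_nonneg fun v _ => logN_nonneg v
        linarith
    _ ≤ _ := by
        rw [hbn]
        have := primes_above (K := K) m hm h2.toFinset (fun v hv => by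
          rw [Set.Finite.mem_toFinset] at hv
          exact hv)
        linarith

end cond

end Pool.Agent.Y729.FW
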