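import Mathlib
import Pool.Agent.W222.UABC.Final

/-!
# Pairs (field, point) with small radical times the square of the discriminant
-/

set_option autoImplicit false

namespace Pool.Agent.Y729.FW

open NumberField IsDedekindDomain Finset Pool.Agent.H691R3 Pool.Agent.W223.AK
open Pool.Agent.W301.Lin Pool.Agent.W222.UABC

/-- the data of one pair -/
def P2 (n : ℕ) (X Y : ℝ)
    (p : IntermediateField ℚ (AlgebraicClosure ℚ) × AlgebraicClosure ℚ) : Prop :=
  ∃ (_ : NumberField p.1) (x : p.1), (x : AlgebraicClosure ℚ) = p.2 ∧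
      Module.finrank ℚ p.1 = n ∧ x ≠ 0 ∧ x ≠ 1 ∧ (n : ℝ) * height ![x, 1 - x, -1] ≤ X ∧
      (n : ℝ) * conductor ![x, 1 - x, -1] + 2 * dd p.1 ≤ Y

theorem dd_nonneg (L : IntermediateField ℚ (AlgebraicClosure ℚ)) : 0 ≤ dd L := by
  unfold dd
  split_ifs with h
  · exact Real.log_nonneg one_le_disc
  · exact le_rfl

theorem core2 (n : ℕ) (e : ℝ) (he : 0 ≤ e) (C : ℝ) (hC : 0 < C)
    (hF : ∀ X : ℝ, 1 ≤ X → (FS ℚ n X).Finite ∧ ((FS ℚ n X).ncard : ℝ) ≤ C * X ^ e)
    {ε : ℝ} (hε0 : 0 < ε) :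
    ∃ D : ℝ, 0 < D ∧ ∀ X Y : ℝ, 0 ≤ X → 0 ≤ Y →
      ∀ E : Finset (IntermediateField ℚ (AlgebraicClosure ℚ) × AlgebraicClosure ℚ),
        (∀ p ∈ E, P2 n X Y p) →
        (E.card : ℝ) ≤ D * (Y + 1) * Real.exp (max (2 / 3) (e / 2) * Y + ε * X) := by
  classical
  obtain ⟨D, hD, hfield⟩ := viol_field n hε0
  refine ⟨D * (C * Real.exp e), by positivity, ?_⟩
  intro X Y hX0 hY0 E hdata
  set F : Finset (IntermediateField ℚ (AlgebraicClosure ℚ)) := E.image Prod.fst with hFd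
  have hcard : (E.card : ℝ) = ∑ L ∈ F, ((E.filter fun p => p.1 = L).card : ℝ) := by
    rw [Finset.card_eq_sum_card_image Prod.fst E]
    push_cast
    rfl
  have hone : ∀ L ∈ F, ((E.filter fun p => p.1 = L).card : ℝ) ≤
      D * Real.exp (2 / 3 * Y + ε * X) * Real.exp (-(4 / 3 * dd L)) := by
    intro L hL
    obtain ⟨p0, hp0, rfl⟩ := Finset.mem_image.1 hL
    obtain ⟨hnf, -, -, hfin, -⟩ := hdata p0 hp0
    set g : AlgebraicClosure ℚ → p0.1 := fun y => if h : y ∈ p0.1 then ⟨y, h⟩ else 0 with hg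
    set G := E.filter fun p => p.1 = p0.1 with hG
    have hGm : ∀ p ∈ G, p ∈ E ∧ p.1 = p0.1 := fun p hp => Finset.mem_filter.1 hp
    have hgx : ∀ p ∈ G, ∃ x : p0.1, (x : AlgebraicClosure ℚ) = p.2 ∧ g p.2 = x ∧ x ≠ 0 ∧ x ≠ 1 ∧
        (n : ℝ) * height ![x, 1 - x, -1] ≤ X ∧
        (n : ℝ) * conductor ![x, 1 - x, -1] ≤ Y - 2 * dd p0.1 := by
      rintro ⟨p1, p2⟩ hp
      obtain ⟨hpE, hp1⟩ := hGm _ hp
      simp only at hp1
      subst hp1
      obtain ⟨_, x, hx, _, hx0, hx1, hh, hc⟩ := hdata _ hpE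
      refine ⟨x, hx, ?_, hx0, hx1, hh, by linarith⟩
      rw [hg]
      simp only at hx
      simp only
      rw [← hx, dif_pos x.2]
    have hinj : Set.InjOn (fun p : IntermediateField ℚ (AlgebraicClosure ℚ) ×
        AlgebraicClosure ℚ => g p.2) (G : Set _) := by
      intro p hp q hq hpq
      obtain ⟨x, hx, hgx', -⟩ := hgx p (Finset.mem_coe.1 hp)
      obtain ⟨y, hy, hgy', -⟩ := hgx q (Finset.mem_coe.1 hq)
      simp only at hpq
      rw [hgx', hgy'] at hpq
      refine Prod.ext ((hGm p (Finset.mem_coe.1 hp)).2.trans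
        (hGm q (Finset.mem_coe.1 hq)).2.symm) ?_
      rw [← hx, ← hy, hpq]
    rw [← Finset.card_image_of_injOn hinj]
    refine (hfield p0.1 hfin X (Y - 2 * dd p0.1) _ hX0 ?_).trans (le_of_eq ?_)
    · intro y hy
      obtain ⟨p, hp, rfl⟩ := Finset.mem_image.1 hy
      obtain ⟨x, -, hgx', hx0, hx1, hh, hc⟩ := hgx p hp
      rw [hgx']
      exact ⟨hx0, hx1, hh, hc⟩
    · rw [mul_assoc, ← Real.exp_add]
      congr 2
      ring
  have hd0 : ∀ L ∈ F, 0 ≤ dd L := fun L _ => dd_nonneg L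
  have hd1 : ∀ L ∈ F, dd L ≤ Y / 2 := by
    intro L hL
    obtain ⟨p0, hp0, rfl⟩ := Finset.mem_image.1 hL
    obtain ⟨_, x, _, _, _, _, _, h⟩ := hdata p0 hp0
    have h2 := mul_nonneg (Nat.cast_nonneg (α := ℝ) n) (conductor_nonneg ![x, 1 - x, -1])
    linarith
  have hFs : ∀ s : ℝ, 0 ≤ s → (({a ∈ F | dd a ≤ s} : Finset _).card : ℝ) ≤
      C * Real.exp (e * s) := by
    intro s hs
    obtain ⟨hf1, hf2⟩ := hF (Real.exp s) (Real.one_le_exp hs)
    have hsub : ((F.filter fun a => dd a ≤ s : Finset (IntermediateField ℚ (AlgebraicClosure ℚ))) :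
        Set (IntermediateField ℚ (AlgebraicClosure ℚ))) ⊆ FS ℚ n (Real.exp s) := by
      intro L hL
      obtain ⟨hLF, hLs⟩ := Finset.mem_filter.1 (Finset.mem_coe.1 hL)
      obtain ⟨p0, hp0, rfl⟩ := Finset.mem_image.1 hLF
      obtain ⟨hnf, -, -, hfin, -⟩ := hdata p0 hp0
      refine ⟨hfin, hnf, ?_⟩
      rw [dd_eq] at hLs
      have h1 : (0 : ℝ) < |((NumberField.discr p0.1 : ℤ) : ℝ)| := by
        have := one_le_disc (K := p0.1)
        linarith
      rw [Real.log_le_iff_le_exp h1] at hLs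
      rw [Int.cast_abs]
      exact hLs
    have h1 : (({a ∈ F | dd a ≤ s} : Finset _).card : ℝ) ≤ ((FS ℚ n (Real.exp s)).ncard : ℝ) := by
      rw [← Set.ncard_coe_finset]
      exact_mod_cast Set.ncard_le_ncard hsub hf1
    refine (h1.trans hf2).trans (le_of_eq ?_)
    rw [← Real.exp_mul, mul_comm s e]
  have hsum := exp_sum F dd C e (4 / 3) (Y / 2) hC.le he (by norm_num) (by linarith) hd0 hd1 hFs
  have hexp : 2 / 3 * Y + ε * X + max (e - 4 / 3) 0 * (Y / 2) =
      max (2 / 3) (e / 2) * Y + ε * X := by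
    rcases le_total (e - 4 / 3) 0 with h | h
    · rw [max_eq_right h, max_eq_left (by linarith)]
      ring
    · rw [max_eq_left h, max_eq_right (by linarith)]
      ring
  have hY2 : Y / 2 + 1 ≤ Y + 1 := by linarith
  calc (E.card : ℝ) = ∑ L ∈ F, ((E.filter fun p => p.1 = L).card : ℝ) := hcard
    _ ≤ ∑ L ∈ F, D * Real.exp (2 / 3 * Y + ε * X) * Real.exp (-(4 / 3 * dd L)) :=
        Finset.sum_le_sum hone
    _ = D * Real.exp (2 / 3 * Y + ε * X) * ∑ L ∈ F, Real.exp (-(4 / 3 * dd L)) := by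
        rw [Finset.mul_sum]
    _ ≤ D * Real.exp (2 / 3 * Y + ε * X) *
          (C * Real.exp e * (Y / 2 + 1) * Real.exp (max (e - 4 / 3) 0 * (Y / 2))) :=
        mul_le_mul_of_nonneg_left hsum (by positivity)
    _ ≤ D * Real.exp (2 / 3 * Y + ε * X) *
          (C * Real.exp e * (Y + 1) * Real.exp (max (e - 4 / 3) 0 * (Y / 2))) := by gcongr
    _ = D * (C * Real.exp e) * (Y + 1) *
          (Real.exp (2 / 3 * Y + ε * X) * Real.exp (max (e - 4 / 3) 0 * (Y / 2))) := by ring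
    _ = _ := by rw [← Real.exp_add, hexp]

/-- the count in terms of one large parameter -/
theorem count2 (n : ℕ) (e : ℝ) (he : 0 ≤ e) (C : ℝ) (hC : 0 < C)
    (hF : ∀ X : ℝ, 1 ≤ X → (FS ℚ n X).Finite ∧ ((FS ℚ n X).ncard : ℝ) ≤ C * X ^ e)
    (a b δ : ℝ) (ha : 0 ≤ a) (hb : 0 ≤ b) (hδ : 0 < δ) :
    ∃ η : ℝ, 0 < η ∧ ∀ c : ℝ, ∃ M : ℝ, 0 ≤ M ∧ ∀ B : ℝ, 1 ≤ B →
      ∀ E : Finset (IntermediateField ℚ (AlgebraicClosure ℚ) × AlgebraicClosure ℚ),
        (∀ p ∈ E, P2 n (b * Real.log B + c) ((a + η) * Real.log B + c) p) →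
        (E.card : ℝ) ≤ M * B ^ (max (2 / 3) (e / 2) * a + δ) := by
  set m : ℝ := max (2 / 3) (e / 2) with hm
  have hm0 : 0 < m := lt_of_lt_of_le (by norm_num) (le_max_left _ _)
  set ε : ℝ := δ / (3 * (b + 1)) with hε
  have hε0 : 0 < ε := by positivity
  obtain ⟨D, hD, hcore⟩ := core2 n e he C hC hF hε0
  set η : ℝ := δ / (3 * m) with hη
  have hη0 : 0 < η := by positivity
  refine ⟨η, hη0, fun c => ?_⟩
  set C2 : ℝ := (a + η) * (3 / δ) + (|c| + 1) with hC2
  have hC20 : 0 < C2 := by have := abs_nonneg c; positivity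
  refine ⟨D * C2 * Real.exp (m * |c| + ε * |c|), by positivity, ?_⟩
  intro B hB E hE
  have hB0 : 0 < B := by linarith
  have hlB : 0 ≤ Real.log B := Real.log_nonneg hB
  set T : ℝ := Real.log B with hT
  have h1 := hcore (b * T + |c|) ((a + η) * T + |c|) (by positivity) (by positivity) E (by
    intro p hp
    obtain ⟨h1, x, h2, h3, h4, h5, h6, h7⟩ := hE p hp
    have hc := le_abs_self c
    exact ⟨h1, x, h2, h3, h4, h5, by linarith, by linarith⟩)
  have h3 : (a + η) * T + |c| + 1 ≤ C2 * Real.exp (δ / 3 * T) := by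
    have e1 : δ / 3 * T ≤ Real.exp (δ / 3 * T) := by
      have := Real.add_one_le_exp (δ / 3 * T)
      linarith
    have e2 : 1 ≤ Real.exp (δ / 3 * T) := Real.one_le_exp (by positivity)
    have e3 : T = 3 / δ * (δ / 3 * T) := by field_simp
    have e4 : T ≤ 3 / δ * Real.exp (δ / 3 * T) := by
      calc T = 3 / δ * (δ / 3 * T) := e3
        _ ≤ _ := mul_le_mul_of_nonneg_left e1 (by positivity)
    have e5 : (a + η) * T ≤ (a + η) * (3 / δ * Real.exp (δ / 3 * T)) :=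
      mul_le_mul_of_nonneg_left e4 (by linarith)
    have e6 : |c| + 1 ≤ (|c| + 1) * Real.exp (δ / 3 * T) :=
      le_mul_of_one_le_right (by have := abs_nonneg c; linarith) e2
    rw [hC2]
    linarith
  calc (E.card : ℝ) ≤ D * ((a + η) * T + |c| + 1) *
        Real.exp (m * ((a + η) * T + |c|) + ε * (b * T + |c|)) := h1
    _ ≤ D * (C2 * Real.exp (δ / 3 * T)) *
        Real.exp (m * ((a + η) * T + |c|) + ε * (b * T + |c|)) := by gcongr
    _ = D * C2 * Real.exp (m * |c| + ε * |c|) * Real.exp (δ / 3 * T + (m * a + m * η + ε * b) * T) := by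
        rw [show D * (C2 * Real.exp (δ / 3 * T)) *
          Real.exp (m * ((a + η) * T + |c|) + ε * (b * T + |c|)) = D * C2 * (Real.exp (δ / 3 * T) *
          Real.exp (m * ((a + η) * T + |c|) + ε * (b * T + |c|))) by ring, ← Real.exp_add,
          mul_assoc (D * C2), ← Real.exp_add]
        congr 2
        ring
    _ ≤ D * C2 * Real.exp (m * |c| + ε * |c|) * Real.exp (T * (m * a + δ)) := by
        refine mul_le_mul_of_nonneg_left (Real.exp_le_exp.2 ?_) (by positivity)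
        have e1 : m * η = δ / 3 := by rw [hη]; field_simp
        have e2 : ε * b ≤ δ / 3 := by
          rw [hε, div_mul_eq_mul_div, div_le_div_iff₀ (by positivity) (by norm_num)]
          nlinarith
        rw [e1]
        nlinarith
    _ = _ := by rw [Real.rpow_def_of_pos hB0]

end Pool.Agent.Y729.FW
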