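import Mathlib
import Pool.Agent.TH876.FH.Def

/-!
# The modular invariant is surjective
-/

set_option autoImplicit false

namespace Pool.Agent.Y729.FW

open UpperHalfPlane ModularForm Filter Asymptotics Topology
open Pool.Agent.TH876.FH (jInv)
open scoped MatrixGroups Real Modular

theorem tendsto_E4 :
    Tendsto (fun τ : ℍ => (ModularForm.E₄ : ℍ → ℂ) τ) atImInfty (𝓝 1) := by
  have h1 : (cuspFunction 1 (ModularForm.E₄ : ℍ → ℂ)) 0 = 1 := by
    have := EisensteinSeries.E_qExpansion_coeff_zero (k := 4) (by norm_num) ⟨2, rfl⟩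
    rw [qExpansion_coeff] at this
    simpa using this
  have ha := (ModularFormClass.analyticAt_cuspFunction_zero ModularForm.E₄ one_pos
    one_mem_strictPeriods_SL).continuousAt.tendsto
  rw [h1] at ha
  have h2 := ha.comp (qParam_tendsto_atImInfty (h := 1) one_pos)
  refine h2.congr fun τ => ?_
  exact SlashInvariantFormClass.eq_cuspFunction ModularForm.E₄ τ one_mem_strictPeriods_SL one_ne_zero

theorem tendsto_disc : Tendsto (fun τ : ℍ => discriminant τ) atImInfty (𝓝 0) := by
  have h2 := tendsto_atImInfty_tprod_one_sub_eta_q_pow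
  have h3 := qParam_tendsto_atImInfty (h := 1) one_pos
  have h5 := h3.mul h2
  rw [zero_mul] at h5
  refine h5.congr fun τ => ?_
  rw [discriminant_eq_q_prod]

theorem tendsto_j : Tendsto (fun τ : ℍ => ‖jInv τ‖) atImInfty atTop := by
  have h1 : Tendsto (fun τ : ℍ => ‖ModularForm.E₄ τ ^ 3‖) atImInfty (𝓝 1) := by
    have := (tendsto_E4.pow 3).norm
    simpa using this
  have h2 : Tendsto (fun τ : ℍ => ‖discriminant τ‖) atImInfty (𝓝[>] 0) := by
    rw [tendsto_nhdsWithin_iff]
    refine ⟨?_, Eventually.of_forall fun τ => norm_pos_iff.2 (discriminant_ne_zero τ)⟩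
    have := tendsto_disc.norm
    simpa using this
  have h3 := Tendsto.pos_mul_atTop one_pos h1 (tendsto_inv_nhdsGT_zero.comp h2)
  refine h3.congr fun τ => ?_
  simp only [jInv, norm_div, Function.comp]
  rfl

theorem E4_smul (g : SL(2, ℤ)) (τ : ℍ) :
    ModularForm.E₄ (g • τ) = denom g τ ^ (4 : ℤ) * ModularForm.E₄ τ :=
  SlashInvariantForm.slash_action_eqn'' (Γ := 𝒮ℒ) ModularForm.E₄
    (γ := Matrix.SpecialLinearGroup.mapGL ℝ g) (by exact ⟨g, rfl⟩) τ

theorem disc_smul (g : SL(2, ℤ)) (τ : ℍ) :
    discriminant (g • τ) = denom g τ ^ (12 : ℤ) * discriminant τ := by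
  have := SlashInvariantForm.slash_action_eqn'' (Γ := 𝒮ℒ) CuspForm.discriminant
    (γ := Matrix.SpecialLinearGroup.mapGL ℝ g) (by exact ⟨g, rfl⟩) τ
  rw [CuspForm.coe_discriminant] at this
  exact this

theorem j_smul (g : SL(2, ℤ)) (τ : ℍ) : jInv (g • τ) = jInv τ := by
  have hd : denom g τ ≠ 0 := denom_ne_zero _ _
  have h2 := discriminant_ne_zero τ
  rw [jInv, jInv, E4_smul, disc_smul, mul_pow, ← zpow_natCast, ← zpow_mul]
  have : ((4 : ℤ) * ((3 : ℕ) : ℤ)) = 12 := by norm_num
  rw [this, mul_div_mul_left _ _ (zpow_ne_zero _ hd)]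

theorem cont_j : Continuous jInv := by
  unfold jInv
  refine ((ModularFormClass.holo ModularForm.E₄).continuous.pow 3).div ?_ discriminant_ne_zero
  have := (ModularFormClass.holo CuspForm.discriminant).continuous
  exact this

/-- **The modular invariant is surjective** -/
theorem j_surj (z : ℂ) : ∃ τ : ℍ, jInv τ = z := by
  -- the range is closed
  have hcl : IsClosed (Set.range jInv) := by
    rw [← closure_subset_iff_isClosed]
    intro z hz
    obtain ⟨A, hA⟩ := (atImInfty_mem _).mp (tendsto_j.eventually_gt_atTop (‖z‖ + 1))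
    have hK : IsCompact (jInv '' ModularGroup.truncatedFundamentalDomain A) :=
      (ModularGroup.isCompact_truncatedFundamentalDomain A).image cont_j
    have hsub : Metric.ball z 1 ∩ Set.range jInv ⊆
        jInv '' ModularGroup.truncatedFundamentalDomain A := by
      rintro w ⟨hw, τ, rfl⟩
      obtain ⟨g, hg⟩ := ModularGroup.exists_smul_mem_fd τ
      refine ⟨g • τ, ⟨hg, ?_⟩, j_smul g τ⟩
      by_contra hc
      have h1 := hA (g • τ) (not_le.1 hc).le
      simp only [Set.mem_ofPred_eq] at h1
      rw [j_smul] at h1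
      rw [Metric.mem_ball, dist_eq_norm] at hw
      have := norm_sub_norm_le (jInv τ) z
      linarith
    have h2 : z ∈ closure (Metric.ball z 1 ∩ Set.range jInv) := by
      exact Metric.isOpen_ball.inter_closure ⟨Metric.mem_ball_self one_pos, hz⟩
    have h3 := closure_mono hsub h2
    rw [hK.isClosed.closure_eq] at h3
    obtain ⟨τ, -, rfl⟩ := h3
    exact ⟨τ, rfl⟩
  -- the range is open
  have hop : IsOpen (Set.range jInv) := by
    set U : Set ℂ := {z : ℂ | 0 < z.im} with hU
    have hUo : IsOpen U := isOpen_lt continuous_const Complex.continuous_im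
    have hUc : IsPreconnected U := (convex_halfSpace_im_gt 0).isPreconnected
    have hd1 : DifferentiableOn ℂ ((ModularForm.E₄ : ℍ → ℂ) ∘ ofComplex) U :=
      mdifferentiable_iff.1 (ModularFormClass.holo ModularForm.E₄)
    have hd2 : DifferentiableOn ℂ ((discriminant : ℍ → ℂ) ∘ ofComplex) U :=
      mdifferentiable_iff.1 (ModularFormClass.holo CuspForm.discriminant)
    have hd : DifferentiableOn ℂ (jInv ∘ ofComplex) U := by
      have := (hd1.pow 3).div hd2 (fun z _ => discriminant_ne_zero _)
      exact this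
    have han : AnalyticOnNhd ℂ (jInv ∘ ofComplex) U := hd.analyticOnNhd hUo
    have himg : (jInv ∘ ofComplex) '' U = Set.range jInv := by
      ext w
      constructor
      · rintro ⟨z, -, rfl⟩
        exact ⟨_, rfl⟩
      · rintro ⟨τ, rfl⟩
        refine ⟨(τ : ℂ), τ.im_pos, ?_⟩
        simp only [Function.comp_apply, ofComplex_apply]
    rcases han.is_constant_or_isOpen hUc with ⟨w, hw⟩ | h
    · exfalso
      have h1 : ∀ τ : ℍ, jInv τ = w := by
        intro τ
        have := hw τ τ.im_pos
        simpa only [Function.comp_apply, ofComplex_apply] using this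
      have h2 := tendsto_j.eventually_gt_atTop ‖w‖
      obtain ⟨τ, hτ⟩ := h2.exists
      rw [h1 τ] at hτ
      exact lt_irrefl _ hτ
    · rw [← himg]
      exact h U subset_rfl hUo
  have huniv : Set.range jInv = Set.univ :=
    IsClopen.eq_univ ⟨hcl, hop⟩ ⟨jInv UpperHalfPlane.I, UpperHalfPlane.I, rfl⟩
  have : z ∈ Set.range jInv := huniv ▸ Set.mem_univ z
  exact this

end Pool.Agent.Y729.FW
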