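import Mathlib
import Pool.Agent.Y729.FW.Core
import Pool.Agent.Y729.FW.Cond
import Pool.Agent.Y729.FW.Surj

/-!
# Many Weil restrictions of elliptic curves with full two-torsion
-/

set_option autoImplicit false

namespace Pool.Agent.Y729.FW

open NumberField IsDedekindDomain Finset Polynomial
open Pool.Agent.H691R3 (fv fv_na)
open Pool.Agent.TH876.FH (faltings IsPeriod FullTwo jInv)

/-- the family -/
def Fam1 (n : ℕ) (B : ℝ) :
    Set (IntermediateField ℚ (AlgebraicClosure ℚ) × AlgebraicClosure ℚ) :=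
  {p | ∃ (_ : NumberField p.1) (j : p.1) (E : WeierstrassCurve p.1)
      (τ : InfinitePlace p.1 → UpperHalfPlane),
    (j : AlgebraicClosure ℚ) = p.2 ∧ Module.finrank ℚ p.1 = n ∧ E.Δ ≠ 0 ∧ FullTwo E ∧
    E.c₄ ^ 3 / E.Δ = j ∧ IsPeriod j τ ∧ (n : ℝ) * faltings j τ ≤ Real.log B}

/-- the Legendre curve -/
def legC {K : Type} [Field K] (l : K) : WeierstrassCurve K := ⟨0, -(1 + l), 0, l, 0⟩

theorem legC_disc {K : Type} [Field K] (l : K) : (legC l).Δ = 16 * (l ^ 2 * (1 - l) ^ 2) := by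
  simp only [legC, WeierstrassCurve.Δ, WeierstrassCurve.b₂, WeierstrassCurve.b₄,
    WeierstrassCurve.b₆, WeierstrassCurve.b₈]
  ring

theorem legC_c4 {K : Type} [Field K] (l : K) : (legC l).c₄ = 16 * (l ^ 2 - l + 1) := by
  simp only [legC, WeierstrassCurve.c₄, WeierstrassCurve.b₂, WeierstrassCurve.b₄]
  ring

theorem legC_two {K : Type} [Field K] (l : K) (h0 : l ≠ 0) (h1 : l ≠ 1) : FullTwo (legC l) := by
  refine ⟨![0, 1, l], ?_, ?_⟩
  · intro a b hab
    fin_cases a <;> fin_cases b <;> simp_all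
  · intro i
    fin_cases i <;>
    · simp [legC, WeierstrassCurve.b₂, WeierstrassCurve.b₄, WeierstrassCurve.b₆]
      try ring

/-- the polynomial `X ^ n + ∑ c_i X ^ i` -/
noncomputable def PP (n : ℕ) (c : Fin n → ℤ) : ℤ[X] := X ^ n + ∑ i : Fin n, C (c i) * X ^ (i : ℕ)

theorem sum_deg (n : ℕ) (c : Fin n → ℤ) :
    (∑ i : Fin n, C (c i) * X ^ (i : ℕ) : ℤ[X]).degree < n := by
  exact Polynomial.degree_sum_fin_lt c

theorem PP_monic (n : ℕ) (c : Fin n → ℤ) : (PP n c).Monic := by
  unfold PP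
  exact Polynomial.monic_X_pow_add (sum_deg n c)

theorem PP_deg (n : ℕ) (c : Fin n → ℤ) : (PP n c).natDegree = n := by
  unfold PP
  rw [Polynomial.natDegree_add_eq_left_of_degree_lt, Polynomial.natDegree_X_pow]
  rw [Polynomial.degree_X_pow]
  exact sum_deg n c

theorem PP_coeff (n : ℕ) (c : Fin n → ℤ) (i : Fin n) : (PP n c).coeff i = c i := by
  unfold PP
  rw [Polynomial.coeff_add, Polynomial.coeff_X_pow, if_neg (by omega), zero_add,
    Polynomial.finsetSum_coeff, Finset.sum_eq_single i]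
  · simp
  · intro j _ hj
    rw [Polynomial.coeff_C_mul, Polynomial.coeff_X_pow, if_neg, mul_zero]
    intro h
    exact hj (Fin.ext h.symm)
  · simp

theorem PP_inj (n : ℕ) (c c' : Fin n → ℤ) (h : PP n c = PP n c') : c = c' := by
  funext i
  rw [← PP_coeff n c i, ← PP_coeff n c' i, h]

theorem PP_eval {R : Type} [CommRing R] (n : ℕ) (c : Fin n → ℤ) (x : R) :
    aeval x (PP n c) = x ^ n + ∑ i : Fin n, (c i : R) * x ^ (i : ℕ) := by
  unfold PP
  simp

theorem PP_irr (n : ℕ) (hn : 1 ≤ n) (c : Fin n → ℤ) (h1 : ∀ i, (2 : ℤ) ∣ c i)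
    (h2 : ¬ (4 : ℤ) ∣ c ⟨0, hn⟩) : Irreducible (PP n c) := by
  have hm := PP_monic n c
  have hp : (Ideal.span {(2 : ℤ)}).IsPrime := by
    rw [Ideal.span_singleton_prime two_ne_zero]
    exact Int.prime_two
  have he : (PP n c).IsEisensteinAt (Ideal.span {(2 : ℤ)}) := by
    refine ⟨?_, ?_, ?_⟩
    · rw [hm.leadingCoeff]
      exact (Ideal.ne_top_iff_one _).1 hp.ne_top
    · intro i hi
      rw [PP_deg] at hi
      rw [show i = ((⟨i, hi⟩ : Fin n) : ℕ) from rfl, PP_coeff, Ideal.mem_span_singleton]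
      exact h1 _
    · rw [show (0 : ℕ) = ((⟨0, hn⟩ : Fin n) : ℕ) from rfl, PP_coeff, Ideal.span_singleton_pow,
        Ideal.mem_span_singleton]
      exact h2
  refine he.irreducible hp hm.isPrimitive ?_
  rw [PP_deg]
  omega

/-- the bound for the roots -/
theorem root_bound {x Z : ℝ} (n : ℕ) (c : Fin n → ℤ) (hZ : 1 ≤ Z)
    (hc : ∀ i : Fin n, |(c i : ℝ)| ≤ (Z / 2) ^ (n - (i : ℕ)))
    (h : x ^ n ≤ ∑ i : Fin n, |(c i : ℝ)| * x ^ (i : ℕ)) : x ≤ Z := by
  by_contra hx
  rw [not_le] at hx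
  have hx0 : 0 < x := by linarith
  have h1 : ∑ i : Fin n, |(c i : ℝ)| * x ^ (i : ℕ) ≤
      ∑ i : Fin n, x ^ n * (1 / 2) ^ (n - (i : ℕ)) := by
    refine Finset.sum_le_sum fun i _ => ?_
    have h2 : (Z / 2) ^ (n - (i : ℕ)) ≤ (x / 2) ^ (n - (i : ℕ)) :=
      pow_le_pow_left₀ (by linarith) (by linarith) _
    have h3 : x ^ n * (1 / 2) ^ (n - (i : ℕ)) = (x / 2) ^ (n - (i : ℕ)) * x ^ (i : ℕ) := by
      have h4 : x ^ n = x ^ (n - (i : ℕ)) * x ^ (i : ℕ) := by
        rw [← pow_add]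
        congr 1
        have := i.2
        omega
      rw [h4, div_eq_mul_one_div x 2, mul_pow]
      ring
    rw [h3]
    exact mul_le_mul_of_nonneg_right ((hc i).trans h2) (by positivity)
  have h2 : ∑ i : Fin n, x ^ n * (1 / 2 : ℝ) ^ (n - (i : ℕ)) < x ^ n := by
    rw [← Finset.mul_sum]
    have h3 : ∑ i : Fin n, (1 / 2 : ℝ) ^ (n - (i : ℕ)) = 1 - (1 / 2) ^ n := by
      rw [← Equiv.sum_comp Fin.revPerm]
      have h4 : ∀ i : Fin n, (1 / 2 : ℝ) ^ (n - ((Fin.revPerm i : Fin n) : ℕ)) =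
          1 / 2 * (1 / 2) ^ (i : ℕ) := by
        intro i
        rw [← pow_succ']
        congr 1
        rw [Fin.revPerm_apply, Fin.val_rev]
        have := i.2
        omega
      rw [Finset.sum_congr rfl fun i _ => h4 i, ← Finset.mul_sum,
        Fin.sum_univ_eq_sum_range (fun i => (1 / 2 : ℝ) ^ i), geom_sum_eq (by norm_num)]
      ring
    rw [h3]
    have h5 : (0 : ℝ) < (1 / 2) ^ n := by positivity
    have h6 : 0 < x ^ n := by positivity
    nlinarith
  linarith

/-- the point attached to a polynomial -/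
theorem exists_point (n : ℕ) (hn : 1 ≤ n) (c : Fin n → ℤ) {Z : ℝ} (hZ : 1 ≤ Z)
    (h1 : ∀ i, (2 : ℤ) ∣ c i) (h2 : ¬ (4 : ℤ) ∣ c ⟨0, hn⟩) (h3 : ∀ i, 0 ≤ c i)
    (h4 : ∀ i : Fin n, (c i : ℝ) ≤ (Z / 2) ^ (n - (i : ℕ))) :
    ∃ (L : IntermediateField ℚ (AlgebraicClosure ℚ)) (_ : NumberField L) (l : L),
      Module.finrank ℚ L = n ∧ l ≠ 0 ∧ l ≠ 1 ∧
      minpoly ℚ (l : AlgebraicClosure ℚ) = (PP n c).map (Int.castRingHom ℚ) ∧
      Height.logHeight₁ l ≤ n * Real.log Z := by
  have hm := PP_monic n c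
  have hirr := PP_irr n hn c h1 h2
  have hirrQ : Irreducible ((PP n c).map (Int.castRingHom ℚ)) :=
    (Polynomial.Monic.irreducible_iff_irreducible_map_fraction_map hm (K := ℚ)).1 hirr
  have hmQ : ((PP n c).map (Int.castRingHom ℚ)).Monic := hm.map _
  have hdQ : ((PP n c).map (Int.castRingHom ℚ)).natDegree = n := by
    rw [hm.natDegree_map, PP_deg]
  obtain ⟨x, hx⟩ := IsAlgClosed.exists_aeval_eq_zero (AlgebraicClosure ℚ)
    ((PP n c).map (Int.castRingHom ℚ)) hirrQ.degree_pos.ne'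
  have hmin : minpoly ℚ x = (PP n c).map (Int.castRingHom ℚ) :=
    (minpoly.eq_of_irreducible_of_monic hirrQ hx hmQ).symm
  have hint : IsIntegral ℚ x := ⟨_, hmQ, by rwa [← Polynomial.aeval_def]⟩
  have hx' : aeval x (PP n c) = 0 := by
    rw [← Polynomial.aeval_map_algebraMap ℚ] 
    exact hx
  set L : IntermediateField ℚ (AlgebraicClosure ℚ) := IntermediateField.adjoin ℚ {x} with hL
  have hfd : FiniteDimensional ℚ L := IntermediateField.adjoin.finiteDimensional hint
  have hnf : NumberField L := { to_charZero := inferInstance, to_finiteDimensional := hfd }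
  set l : L := IntermediateField.AdjoinSimple.gen ℚ x with hl
  have hlx : (l : AlgebraicClosure ℚ) = x := IntermediateField.AdjoinSimple.coe_gen ℚ x
  have hfin : Module.finrank ℚ L = n := by
    rw [hL, IntermediateField.adjoin.finrank hint, hmin, hdQ]
  have hlr : l ^ n + ∑ i : Fin n, (c i : L) * l ^ (i : ℕ) = 0 := by
    rw [← PP_eval]
    have h5 : algebraMap L (AlgebraicClosure ℚ) (aeval l (PP n c)) = 0 := by
      rw [← Polynomial.aeval_algebraMap_apply]
      have h6 : algebraMap L (AlgebraicClosure ℚ) l = x := hlx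
      rw [h6]
      exact hx'
    exact (map_eq_zero_iff _ (algebraMap L (AlgebraicClosure ℚ)).injective).1 h5
  have hpos : ∀ y : ℝ, 0 ≤ ∑ i : Fin n, (c i : ℝ) * |y| ^ (i : ℕ) := fun y =>
    Finset.sum_nonneg fun i _ => mul_nonneg (by exact_mod_cast h3 i) (by positivity)
  have hc0 : c ⟨0, hn⟩ ≠ 0 := fun h => h2 (h ▸ dvd_zero _)
  refine ⟨L, hnf, l, hfin, ?_, ?_, ?_, ?_⟩
  · intro h0
    rw [h0, zero_pow (by omega), zero_add, Finset.sum_eq_single ⟨0, hn⟩] at hlr
    · simp at hlr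
      exact hc0 hlr
    · intro i _ hi
      rw [zero_pow, mul_zero]
      intro h
      exact hi (Fin.ext h)
    · simp
  · intro h0
    rw [h0, one_pow] at hlr
    simp only [one_pow, mul_one] at hlr
    have h5 : ((1 + ∑ i : Fin n, c i : ℤ) : L) = 0 := by
      push_cast
      exact hlr
    have h6 : (1 + ∑ i : Fin n, c i : ℤ) = 0 := by exact_mod_cast h5
    have h7 : 0 ≤ ∑ i : Fin n, c i := Finset.sum_nonneg fun i _ => h3 i
    omega
  · rw [hlx, hmin]
  · have hna : ∀ v : HeightOneSpectrum (𝓞 L), lp (fv v) l = 0 := by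
      intro v
      have hli : IsIntegral ℤ l := ⟨PP n c, hm, by
        rw [← Polynomial.aeval_def]
        exact (PP_eval n c l).trans hlr⟩
      have h5 := Pool.Agent.H691R3.fv_int_le_one v (⟨l, hli⟩ : 𝓞 L)
      unfold lp
      have h6 : fv v l ≤ 1 := h5
      rw [max_eq_right h6, Real.log_one]
    rw [lh_eq, finsum_congr hna, finsum_zero, add_zero, ← hfin, ← sum_mult, Finset.sum_mul]
    refine Finset.sum_le_sum fun w _ => ?_
    refine mul_le_mul_of_nonneg_left ?_ (Nat.cast_nonneg _)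
    unfold lp
    refine Real.log_le_log (lt_max_of_lt_right one_pos) (max_le ?_ hZ)
    refine root_bound n c hZ (fun i => ?_) ?_
    · rw [abs_of_nonneg (by exact_mod_cast h3 i)]
      exact h4 i
    · have h5 : w.1 l = ‖w.embedding l‖ := (InfinitePlace.norm_embedding_eq w l).symm
      have h6 : (w.embedding l) ^ n + ∑ i : Fin n, (c i : ℂ) * (w.embedding l) ^ (i : ℕ) = 0 := by
        have := congrArg w.embedding hlr
        simpa using this
      have h7 : (w.embedding l) ^ n = -∑ i : Fin n, (c i : ℂ) * (w.embedding l) ^ (i : ℕ) :=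
        eq_neg_of_add_eq_zero_left h6
      rw [h5, ← norm_pow, h7, norm_neg]
      refine (norm_sum_le _ _).trans (le_of_eq ?_)
      refine Finset.sum_congr rfl fun i _ => ?_
      rw [norm_mul, norm_pow, Complex.norm_intCast]

theorem sum_tri (n : ℕ) : (∑ i : Fin n, (n - (i : ℕ))) * 2 = (n + 1) * n := by
  have h1 : ∑ i : Fin n, (n - (i : ℕ)) = ∑ i ∈ Finset.range (n + 1), i := by
    rw [Fin.sum_univ_eq_sum_range (fun i => n - i), ← Finset.sum_range_reflect,
      Finset.sum_range_succ' (fun i => i)]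
    rw [add_zero]
    refine Finset.sum_congr rfl fun i hi => ?_
    rw [Finset.mem_range] at hi
    omega
  rw [h1, Finset.sum_range_id_mul_two]
  rfl

/-- the polynomial of the Legendre parameters of a given modular invariant -/
noncomputable def QQ (y : AlgebraicClosure ℚ) : (AlgebraicClosure ℚ)[X] :=
  256 * (X ^ 2 - X + 1) ^ 3 - C y * (X ^ 2 * (1 - X) ^ 2)

theorem QQ_deg (y : AlgebraicClosure ℚ) : (QQ y).natDegree ≤ 6 := by
  unfold QQ
  compute_degree

theorem QQ_ne (y : AlgebraicClosure ℚ) : QQ y ≠ 0 := by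
  intro h
  have h1 : (QQ y).eval 0 = 256 := by
    unfold QQ
    simp
  rw [h] at h1
  simp at h1

/-- **Many members of the family** -/
theorem low1 (n : ℕ) (hn : 1 ≤ n) : ∃ b : ℝ, 0 < b ∧ ∃ B₀ : ℝ, ∀ B : ℝ, B₀ ≤ B →
    ∃ F : Finset (IntermediateField ℚ (AlgebraicClosure ℚ) × AlgebraicClosure ℚ),
      (F : Set (IntermediateField ℚ (AlgebraicClosure ℚ) × AlgebraicClosure ℚ)) ⊆ Fam1 n B ∧
      b * B ^ (n + 1) ≤ F.card := by
  classical
  obtain ⟨c1, hc1, hf1⟩ := fal_two
  obtain ⟨c2, hc2, hf2⟩ := six_height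
  have hl2 : 0 ≤ Real.log 2 := Real.log_nonneg (by norm_num)
  have hn0 : (0 : ℝ) < n := by exact_mod_cast hn
  set s : ℝ := Real.exp (-((c1 + c2 + 6 * Real.log 2) * n / 12)) with hs
  have hs0 : 0 < s := Real.exp_pos _
  have hs1 : Real.log s = -((c1 + c2 + 6 * Real.log 2) * n / 12) := by rw [hs, Real.log_exp]
  refine ⟨1 / 6 * (1 / 8) ^ n * s ^ (n + 1), by positivity, 2 ^ n / s, fun B hB => ?_⟩
  have hB1 : (2 : ℝ) ^ n ≤ s * B := by
    rw [div_le_iff₀ hs0] at hB
    linarith
  have hsB : 0 < s * B := lt_of_lt_of_le (by positivity) hB1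
  have hB0 : 0 < B := by
    by_contra hc
    have := mul_nonpos_of_nonneg_of_nonpos hs0.le (not_lt.1 hc)
    linarith
  set T : ℝ := (s * B) ^ ((2 : ℝ) / n) with hT
  have hT0 : 0 < T := Real.rpow_pos_of_pos hsB _
  have hT4 : 4 ≤ T := by
    have h1 : ((2 : ℝ) ^ n) ^ ((2 : ℝ) / n) ≤ T :=
      Real.rpow_le_rpow (by positivity) hB1 (by positivity)
    have h2 : ((2 : ℝ) ^ n) ^ ((2 : ℝ) / n) = 4 := by
      rw [← Real.rpow_natCast, ← Real.rpow_mul (by norm_num)]
      have : (n : ℝ) * (2 / n) = 2 := by field_simp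
      rw [this]
      norm_num
    linarith
  set N : Fin n → ℕ := fun i => ⌊T ^ (n - (i : ℕ)) / 4⌋₊ with hN
  set S : Finset (Fin n → ℕ) := Fintype.piFinset fun i => Finset.range (N i) with hS
  set c : (Fin n → ℕ) → Fin n → ℤ := fun b i =>
    4 * (b i : ℤ) + (if (i : ℕ) = 0 then 2 else 0) with hc
  have hcinj : ∀ b b' : Fin n → ℕ, c b = c b' → b = b' := by
    intro b b' h
    funext i
    have h1 := congrFun h i
    simp only [hc] at h1
    omega
  have hpt : ∀ b ∈ S, ∃ (L : IntermediateField ℚ (AlgebraicClosure ℚ)) (_ : NumberField L) (l : L),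
      Module.finrank ℚ L = n ∧ l ≠ 0 ∧ l ≠ 1 ∧
      minpoly ℚ (l : AlgebraicClosure ℚ) = (PP n (c b)).map (Int.castRingHom ℚ) ∧
      Height.logHeight₁ l ≤ n * Real.log (2 * T) := by
    intro b hb
    rw [hS, Fintype.mem_piFinset] at hb
    refine exists_point n hn (c b) (by linarith) (fun i => ?_) ?_ (fun i => ?_) (fun i => ?_)
    · simp only [hc]
      split_ifs <;> omega
    · simp only [hc, if_true]
      omega
    · simp only [hc]
      split_ifs <;> omega
    · have h1 := Finset.mem_range.1 (hb i)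
      have h2 : ((N i : ℕ) : ℝ) ≤ T ^ (n - (i : ℕ)) / 4 := Nat.floor_le (by positivity)
      have h3 : c b i ≤ 4 * (N i : ℤ) := by
        simp only [hc]
        split_ifs <;> omega
      have h4 : (c b i : ℝ) ≤ 4 * (N i : ℝ) := by exact_mod_cast h3
      have h5 : 2 * T / 2 = T := by ring
      rw [h5]
      linarith
  choose! Lf hnf lf hfin h0 h1 hmin hht using hpt
  set jf : (b : Fin n → ℕ) → Lf b := fun b =>
    256 * ((lf b) ^ 2 - lf b + 1) ^ 3 / ((lf b) ^ 2 * (1 - lf b) ^ 2) with hjf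
  have hden : ∀ b ∈ S, (lf b) ^ 2 * (1 - lf b) ^ 2 ≠ 0 := fun b hb =>
    mul_ne_zero (pow_ne_zero _ (h0 b hb)) (pow_ne_zero _ (sub_ne_zero.2 (h1 b hb).symm))
  have hrel : ∀ b ∈ S, jf b * ((lf b) ^ 2 * (1 - lf b) ^ 2) =
      256 * ((lf b) ^ 2 - lf b + 1) ^ 3 := fun b hb => div_mul_cancel₀ _ (hden b hb)
  set Ψ : (Fin n → ℕ) → IntermediateField ℚ (AlgebraicClosure ℚ) × AlgebraicClosure ℚ :=
    fun b => (Lf b, (jf b : AlgebraicClosure ℚ)) with hΨ
  refine ⟨S.image Ψ, ?_, ?_⟩
  · intro p hp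
    obtain ⟨b, hb, rfl⟩ := Finset.mem_image.1 (Finset.mem_coe.1 hp)
    have : NumberField (Lf b) := hnf b hb
    have hτ : ∀ w : InfinitePlace (Lf b), ∃ τ : UpperHalfPlane, jInv τ = w.embedding (jf b) :=
      fun w => j_surj _
    choose τ hτ using hτ
    refine ⟨hnf b hb, jf b, legC (lf b), τ, rfl, hfin b hb, ?_, legC_two _ (h0 b hb) (h1 b hb),
      ?_, hτ, ?_⟩
    · rw [legC_disc]
      exact mul_ne_zero (by norm_num) (hden b hb)
    · rw [legC_disc, legC_c4, hjf, div_eq_div_iff (mul_ne_zero (by norm_num) (hden b hb))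
        (hden b hb)]
      ring
    · have k1 := hf1 (Lf b) (jf b) τ hτ
      have k2 := (hf2 (Lf b) (jf b) (lf b) (h0 b hb) (h1 b hb) (hrel b hb)).2
      have k3 := hht b hb
      rw [hfin b hb] at k1 k2
      have k4 : Real.log (2 * T) = Real.log 2 + 2 / n * Real.log (s * B) := by
        rw [Real.log_mul two_ne_zero hT0.ne', hT, Real.log_rpow hsB]
      have k5 : (n : ℝ) * Real.log (2 * T) = n * Real.log 2 + 2 * (Real.log s + Real.log B) := by
        rw [k4, Real.log_mul hs0.ne' hB0.ne']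
        field_simp
      rw [k5] at k3
      rw [hs1] at k3
      linarith
  · have hfib : ∀ p ∈ S.image Ψ, (S.filter fun b => Ψ b = p).card ≤ 6 := by
      intro p _
      have hinj : Set.InjOn (fun b => (lf b : AlgebraicClosure ℚ))
          ((S.filter fun b => Ψ b = p : Finset _) : Set (Fin n → ℕ)) := by
        intro b hb b' hb' hbb
        rw [Finset.mem_coe, Finset.mem_filter] at hb hb'
        simp only at hbb
        have e1 := hmin b hb.1
        have e2 := hmin b' hb'.1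
        rw [hbb, e2] at e1
        exact (hcinj _ _ (PP_inj _ _ _
          (Polynomial.map_injective _ (RingHom.injective_int _) e1))).symm
      rw [← Finset.card_image_of_injOn hinj]
      have hsub : (S.filter fun b => Ψ b = p).image (fun b => (lf b : AlgebraicClosure ℚ)) ⊆
          (QQ p.2).roots.toFinset := by
        intro x hx
        obtain ⟨b, hb, rfl⟩ := Finset.mem_image.1 hx
        rw [Finset.mem_filter] at hb
        rw [Multiset.mem_toFinset, Polynomial.mem_roots (QQ_ne _), Polynomial.IsRoot.def]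
        have e1 : p.2 = (jf b : AlgebraicClosure ℚ) := by
          rw [← hb.2]
        have e2 := congrArg (algebraMap (Lf b) (AlgebraicClosure ℚ)) (hrel b hb.1)
        simp only [map_mul, map_pow, map_sub, map_add, map_one, map_ofNat] at e2
        unfold QQ
        rw [e1]
        simp only [Polynomial.eval_sub, Polynomial.eval_mul, Polynomial.eval_pow,
          Polynomial.eval_add, Polynomial.eval_X, Polynomial.eval_one, Polynomial.eval_C,
          Polynomial.eval_ofNat]
        rw [sub_eq_zero]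
        exact e2.symm
      exact (Finset.card_le_card hsub).trans ((Multiset.toFinset_card_le _).trans
        ((Polynomial.card_roots' _).trans (QQ_deg _)))
    have h2 := Finset.card_le_mul_card_image S 6 hfib
    have h3 : S.card = ∏ i : Fin n, N i := by
      rw [hS, Fintype.card_piFinset]
      simp
    have h4 : ∏ i : Fin n, (T ^ (n - (i : ℕ)) * (1 / 8)) ≤ ∏ i : Fin n, ((N i : ℕ) : ℝ) := by
      refine Finset.prod_le_prod (fun i _ => by positivity) fun i _ => ?_
      have h5 : T ≤ T ^ (n - (i : ℕ)) := by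
        have := i.2
        exact le_self_pow₀ (by linarith) (by omega)
      have h6 : T ^ (n - (i : ℕ)) / 4 < (N i : ℝ) + 1 := Nat.lt_floor_add_one _
      have h7 : 1 ≤ N i := by
        simp only [hN]
        rw [Nat.one_le_floor_iff]
        linarith
      have h8 : (1 : ℝ) ≤ N i := by exact_mod_cast h7
      linarith
    have h5 : ∏ i : Fin n, (T ^ (n - (i : ℕ)) * (1 / 8)) = (s * B) ^ (n + 1) * (1 / 8) ^ n := by
      rw [Finset.prod_mul_distrib, Finset.prod_const, Finset.card_univ, Fintype.card_fin,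
        Finset.prod_pow_eq_pow_sum]
      congr 1
      rw [hT, ← Real.rpow_natCast, ← Real.rpow_mul hsB.le, ← Real.rpow_natCast]
      congr 1
      have h6 : ((∑ i : Fin n, (n - (i : ℕ)) : ℕ) : ℝ) * 2 = (n + 1) * n := by
        exact_mod_cast sum_tri n
      push_cast at h6 ⊢
      field_simp
      linarith
    have h6 : (S.card : ℝ) ≤ 6 * ((S.image Ψ).card : ℝ) := by exact_mod_cast h2
    rw [h3] at h6
    push_cast at h6
    rw [h5] at h4
    have h7 : (s * B) ^ (n + 1) * (1 / 8) ^ n ≤ 6 * ((S.image Ψ).card : ℝ) := h4.trans h6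
    rw [mul_pow] at h7
    linarith

end Pool.Agent.Y729.FW
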