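import Mathlib
import Pool.Agent.Y729.FW.Core
import Pool.Agent.Y729.FW.Cond

/-!
# Violators of Frey's inequality among the Weil restrictions of elliptic curves with full two-torsion
-/

set_option autoImplicit false

namespace Pool.Agent.Y729.FW

open NumberField IsDedekindDomain Finset Pool.Agent.W223.AK
open Pool.Agent.W301.Lin Pool.Agent.W222.UABC
open Pool.Agent.H691R3 (fv fv_na)
open Pool.Agent.TH876.FH (faltings IsPeriod FullTwo GoodAt badNorm)

/-- the violators -/
def Viol1 (n : ℕ) (κ c B : ℝ) :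
    Set (IntermediateField ℚ (AlgebraicClosure ℚ) × AlgebraicClosure ℚ) :=
  {p | ∃ (_ : NumberField p.1) (j : p.1) (E : WeierstrassCurve p.1)
      (τ : InfinitePlace p.1 → UpperHalfPlane),
    (j : AlgebraicClosure ℚ) = p.2 ∧ Module.finrank ℚ p.1 = n ∧ E.Δ ≠ 0 ∧ FullTwo E ∧
    E.c₄ ^ 3 / E.Δ = j ∧ IsPeriod j τ ∧ (n : ℝ) * faltings j τ ≤ Real.log B ∧
    κ * Real.log (badNorm E * |(NumberField.discr p.1 : ℝ)| ^ 2) + c < (n : ℝ) * faltings j τ}

/-- `n h(l, 1 - l, -1) ≤ h(l) + n log 2` -/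
theorem H3_le {K : Type} [Field K] [NumberField K] (l : K) :
    (Module.finrank ℚ K : ℝ) * height ![l, 1 - l, -1] ≤
      Height.logHeight₁ l + Module.finrank ℚ K * Real.log 2 := by
  rw [H3_height, lh_eq, ← sum_mult, Finset.sum_mul]
  unfold H3
  have e0 : (![l, 1 - l, -1] : Fin 3 → K) 0 = l := rfl
  have e1 : (![l, 1 - l, -1] : Fin 3 → K) 1 = 1 - l := rfl
  have e2 : (![l, 1 - l, -1] : Fin 3 → K) 2 = -1 := rfl
  rw [e0, e1, e2]
  have h1 : ∑ w : InfinitePlace K, (w.mult : ℝ) * Real.log (max (w l) (max (w (1 - l)) (w (-1)))) ≤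
      ∑ w : InfinitePlace K, (w.mult : ℝ) * lp w.1 l +
        ∑ w : InfinitePlace K, (w.mult : ℝ) * Real.log 2 := by
    rw [← Finset.sum_add_distrib]
    refine Finset.sum_le_sum fun w _ => ?_
    rw [← mul_add]
    apply mul_le_mul_of_nonneg_left _ (Nat.cast_nonneg _)
    unfold lp
    rw [← Real.log_mul (lt_max_of_lt_right one_pos).ne' two_ne_zero]
    have k1 : w (-1) = 1 := by
      have := w.1.map_neg 1
      rw [map_one] at this
      exact this
    have k2 : w (1 - l) ≤ 1 + w.1 l := by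
      have h2 := abs_sub_le w.1 1 l
      rw [map_one] at h2
      exact h2
    have k3 : w l = w.1 l := rfl
    rw [k1]
    have h3 := le_max_left (w.1 l) 1
    have h4 := le_max_right (w.1 l) 1
    refine Real.log_le_log (lt_max_of_lt_right (lt_max_of_lt_right one_pos)) ?_
    refine max_le ?_ (max_le ?_ ?_)
    · rw [k3]; linarith
    · linarith
    · linarith
  have h2 : ∑ᶠ v : HeightOneSpectrum (𝓞 K), Real.log
      (max (FinitePlace.mk v l) (max (FinitePlace.mk v (1 - l)) (FinitePlace.mk v (-1)))) =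
      ∑ᶠ v : HeightOneSpectrum (𝓞 K), lp (fv v) l := by
    refine finsum_congr fun v => ?_
    unfold lp
    have k1 : FinitePlace.mk v (-1 : K) = 1 := by
      have := (fv v).map_neg 1
      rw [map_one] at this
      exact this
    have k2 : FinitePlace.mk v (1 - l) ≤ max (fv v l) 1 := by
      have h3 := fv_na v 1 (-l)
      rw [← sub_eq_add_neg, AbsoluteValue.map_neg, map_one, max_comm] at h3
      exact h3
    have k3 : FinitePlace.mk v l = fv v l := rfl
    rw [k1, k3]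
    congr 1
    apply le_antisymm
    · exact max_le (le_max_left _ _) (max_le k2 (le_max_right _ _))
    · exact max_le (le_max_left _ _) ((le_max_right _ _).trans (le_max_right _ _))
  rw [h2]
  linarith

/-- the conductor of the Legendre parameter -/
theorem cond_leg {K : Type} [Field K] [NumberField K] (E : WeierstrassCurve K) (hE : E.Δ ≠ 0)
    {l : K} (hl : ∀ v : HeightOneSpectrum (𝓞 K), GoodAt v E → v.valuation K (2 : K) = 1 →
      v.valuation K l = 1 ∧ v.valuation K (1 - l) = 1) :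
    (Module.finrank ℚ K : ℝ) * Pool.Agent.W222.UABC.conductor ![l, 1 - l, -1] ≤
      Real.log (badNorm E) + Module.finrank ℚ K * Real.log 2 := by
  have e0 : (![l, 1 - l, -1] : Fin 3 → K) 0 = l := rfl
  have e1 : (![l, 1 - l, -1] : Fin 3 → K) 1 = 1 - l := rfl
  have e2 : (![l, 1 - l, -1] : Fin 3 → K) 2 = -1 := rfl
  have hn : (Module.finrank ℚ K : ℝ) ≠ 0 := by
    exact_mod_cast (Module.finrank_pos (R := ℚ) (M := K)).ne'
  unfold Pool.Agent.W222.UABC.conductor
  rw [mul_div_cancel₀ _ hn, e0, e1, e2]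
  have h := sum_le_bad 2 two_ne_zero E hE {v : HeightOneSpectrum (𝓞 K) |
    ¬ (FinitePlace.mk v l = FinitePlace.mk v (1 - l) ∧
      FinitePlace.mk v (1 - l) = FinitePlace.mk v (-1))} (by
    intro v hv
    by_contra hc
    rw [not_or, not_not, not_not] at hc
    obtain ⟨hg, h2⟩ := hc
    push_cast at h2
    rw [fv_eq_one_iff] at h2
    obtain ⟨h3, h4⟩ := hl v hg h2
    rw [← fv_eq_one_iff] at h3 h4
    apply hv
    have k1 : FinitePlace.mk v (-1 : K) = 1 := by
      have := (fv v).map_neg 1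
      rw [map_one] at this
      exact this
    rw [k1]
    exact ⟨h3.trans h4.symm, h4⟩)
  push_cast at h
  exact h

/-- **The count of the violators**, in terms of an exponent for the number of fields -/
theorem main1 (n : ℕ) (hn : 1 ≤ n) (e : ℝ) (he : 0 ≤ e) (C : ℝ) (hC : 0 < C)
    (hF : ∀ X : ℝ, 1 ≤ X → (FS ℚ n X).Finite ∧ ((FS ℚ n X).ncard : ℝ) ≤ C * X ^ e)
    (κ c δ : ℝ) (hκ : 0 < κ) (hδ : 0 < δ) :
    ∃ M : ℝ, ∀ B : ℝ, 1 ≤ B → (Viol1 n κ c B).Finite ∧
      ((Viol1 n κ c B).ncard : ℝ) ≤ M * B ^ (max (2 / 3) (e / 2) / κ + δ) := by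
  classical
  obtain ⟨η, hη, hcount⟩ := count2 n e he C hC hF (1 / κ) 4 δ (by positivity) (by norm_num) hδ
  obtain ⟨c1, hc1, hf1⟩ := fal_one (δ := 1) one_pos
  obtain ⟨c2, hc2, hf2⟩ := six_height
  set c0 : ℝ := |c| / κ + n * (c1 + c2 + 2 * Real.log 2) with hc0
  have hl2 : 0 ≤ Real.log 2 := Real.log_nonneg (by norm_num)
  have hn0 : (0 : ℝ) ≤ n := Nat.cast_nonneg n
  obtain ⟨M, hM, hB⟩ := hcount c0
  refine ⟨M, fun B hB1 => ?_⟩
  have hB0 : 0 < B := by linarith
  have hlB : 0 ≤ Real.log B := Real.log_nonneg hB1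
  -- the parameter of a violator
  have hpar : ∀ p ∈ Viol1 n κ c B, ∃ (_ : NumberField p.1) (l j : p.1),
      (j : AlgebraicClosure ℚ) = p.2 ∧ l ≠ 0 ∧ l ≠ 1 ∧
      j * (l ^ 2 * (1 - l) ^ 2) = 256 * (l ^ 2 - l + 1) ^ 3 ∧
      P2 n (4 * Real.log B + c0) ((1 / κ + η) * Real.log B + c0) (p.1, (l : AlgebraicClosure ℚ)) := by
    rintro ⟨L, y⟩ ⟨hnf, j, E, τ, hj, hfin, hΔ, h2t, hjE, hτ, hH, hV⟩
    simp only at hj hfin hnf j E τ hV ⊢
    obtain ⟨l, h0, h1, hrel, hgood⟩ := leg L E hΔ h2t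
    rw [hjE] at hrel
    refine ⟨hnf, l, j, hj, h0, h1, hrel, hnf, l, rfl, hfin, h0, h1, ?_, ?_⟩
    · have k1 := hf1 L j τ hτ
      have k2 := (hf2 L j l h0 h1 hrel).1
      have k3 := H3_le l
      rw [hfin] at k1 k2 k3
      have k4 : (1 + 1) * (12 * (n : ℝ) * faltings j τ) ≤ 24 * Real.log B := by linarith
      have k5 : 0 ≤ |c| / κ := by positivity
      have k6 : 0 ≤ (n : ℝ) * c1 := by positivity
      have k7 : 0 ≤ (n : ℝ) * c2 := by positivity
      have k8 : 0 ≤ (n : ℝ) * Real.log 2 := by positivity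
      rw [hc0]
      linarith
    · have k1 := cond_leg E hΔ hgood
      rw [hfin] at k1
      have hb1 : 1 ≤ badNorm E := Pool.Agent.TH876.TT.Viol_one_le E
      have hd1 : (1 : ℝ) ≤ |(NumberField.discr L : ℝ)| := one_le_disc
      rw [Real.log_mul (by linarith) (by positivity), Real.log_pow] at hV
      push_cast at hV
      have k2 : dd L = Real.log |(NumberField.discr L : ℝ)| := dd_eq L
      rw [← k2] at hV
      have k3 : κ * (Real.log (badNorm E) + 2 * dd L) ≤ Real.log B + |c| := by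
        have := neg_abs_le c
        linarith
      have k4 : Real.log (badNorm E) + 2 * dd L ≤ (Real.log B + |c|) / κ := by
        rw [le_div_iff₀ hκ]
        linarith
      have k5 : (Real.log B + |c|) / κ = 1 / κ * Real.log B + |c| / κ := by ring
      have k6 : 0 ≤ (n : ℝ) * c1 := by positivity
      have k7 : 0 ≤ (n : ℝ) * c2 := by positivity
      have k8 : 0 ≤ (n : ℝ) * Real.log 2 := by positivity
      have k9 : 0 ≤ η * Real.log B := by positivity
      rw [hc0]
      simp only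
      linarith
  refine ncard_le_of _ _ fun F hFs => ?_
  have hex : ∀ p : IntermediateField ℚ (AlgebraicClosure ℚ) × AlgebraicClosure ℚ,
      ∃ l : AlgebraicClosure ℚ, p ∈ F → (l ≠ 0 ∧ l ≠ 1 ∧
      p.2 * (l ^ 2 * (1 - l) ^ 2) = 256 * (l ^ 2 - l + 1) ^ 3 ∧
      P2 n (4 * Real.log B + c0) ((1 / κ + η) * Real.log B + c0) (p.1, l)) := by
    intro p
    by_cases hp : p ∈ F
    · obtain ⟨_, l, j, hj, h0, h1, hrel, hP⟩ := hpar p (hFs (Finset.mem_coe.2 hp))
      refine ⟨(l : AlgebraicClosure ℚ), fun _ => ⟨?_, ?_, ?_, hP⟩⟩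
      · exact_mod_cast h0
      · exact_mod_cast h1
      · rw [← hj]
        have h5 := congrArg (algebraMap p.1 (AlgebraicClosure ℚ)) hrel
        simp only [map_mul, map_pow, map_sub, map_add, map_one, map_ofNat] at h5
        exact h5
    · exact ⟨0, fun h => absurd h hp⟩
  choose g hg using hex
  have hinj : Set.InjOn (fun p : IntermediateField ℚ (AlgebraicClosure ℚ) × AlgebraicClosure ℚ =>
      (p.1, g p)) (F : Set _) := by
    intro p hp q hq hpq
    obtain ⟨h0, h1, h2, -⟩ := hg p (Finset.mem_coe.1 hp)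
    obtain ⟨-, -, h2', -⟩ := hg q (Finset.mem_coe.1 hq)
    simp only [Prod.mk.injEq] at hpq
    obtain ⟨e1, e2⟩ := hpq
    rw [← e2] at h2'
    refine Prod.ext e1 ?_
    have h3 : (g p) ^ 2 * (1 - g p) ^ 2 ≠ 0 :=
      mul_ne_zero (pow_ne_zero _ h0) (pow_ne_zero _ (sub_ne_zero.2 h1.symm))
    exact mul_right_cancel₀ h3 (h2.trans h2'.symm)
  rw [← Finset.card_image_of_injOn hinj]
  refine (hB B hB1 _ ?_).trans (le_of_eq ?_)
  · intro q hq
    obtain ⟨p, hp, rfl⟩ := Finset.mem_image.1 hq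
    exact (hg p hp).2.2.2
  · congr 2
    rw [mul_one_div]

/-- **Violators of Frey's inequality** -/
theorem final1 : ∃ e : ℕ → ℝ,
    (∀ c : ℝ, 1 / (16 * (Real.log 2) ^ 2) < c →
      ∀ᶠ n : ℕ in Filter.atTop, e n ≤ c * (Real.log n) ^ 2) ∧
    (∀ n : ℕ, 2 ≤ n → e n ≤ max (2 / 3) (eS n / 2)) ∧
    ∀ n : ℕ, 2 ≤ n → ∀ κ c δ : ℝ, 0 < κ → 0 < δ →
      ∃ M : ℝ, ∀ B : ℝ, 1 ≤ B → (Viol1 n κ c B).Finite ∧
        ((Viol1 n κ c B).ncard : ℝ) ≤ M * B ^ (e n / κ + δ) := by
  obtain ⟨e, h1, h2, h3⟩ := linnik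
  refine ⟨fun n => max (2 / 3) (min (e n) (eS n) / 2), fun c hc => ?_, fun n _ => ?_,
    fun n hn κ c δ hκ hδ => ?_⟩
  · have hlog2 : 0 < Real.log 2 := Real.log_pos (by norm_num)
    have hc' : 1 / (8 * (Real.log 2) ^ 2) < 2 * c := by
      have : 1 / (8 * (Real.log 2) ^ 2) = 2 * (1 / (16 * (Real.log 2) ^ 2)) := by
        field_simp
        norm_num
      rw [this]
      linarith
    have hc0 : 0 < c := lt_trans (by positivity) hc
    have hlog : Filter.Tendsto (fun n : ℕ => Real.log n) Filter.atTop Filter.atTop :=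
      Real.tendsto_log_atTop.comp tendsto_natCast_atTop_atTop
    have hlim : Filter.Tendsto (fun n : ℕ => c * (Real.log n) ^ 2) Filter.atTop Filter.atTop :=
      Filter.Tendsto.const_mul_atTop hc0 ((Filter.tendsto_pow_atTop two_ne_zero).comp hlog)
    filter_upwards [h1 _ hc', hlim.eventually_ge_atTop (2 / 3)] with n hn1 hn2
    refine max_le hn2 ?_
    have := min_le_left (e n) (eS n)
    linarith
  · refine max_le_max le_rfl ?_
    have := min_le_right (e n) (eS n)
    linarith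
  · simp only
    rcases le_total (e n) (eS n) with h | h
    · rw [min_eq_left h]
      obtain ⟨C, hC, hF⟩ := h3 n hn
      exact main1 n (by omega) (e n) (by linarith [h2 n]) C hC hF κ c δ hκ hδ
    · rw [min_eq_right h]
      obtain ⟨C, hC, hF⟩ := schmidt hn
      have := one_le_eS hn
      exact main1 n (by omega) (eS n) (by linarith) C hC hF κ c δ hκ hδ

end Pool.Agent.Y729.FW
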